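import Pool.Graph.R_pool_sql_team_46959087.Helper19.MulTable
import Pool.Graph.R_seed8.H692R2.USS.T1
import Pool.Graph.R_pool_sql_team_seeded_63374d34.N943.DS.Div

set_option autoImplicit false

/-! Shifted primes with a divisor near the square root, after Erdős -/

namespace Pool.Agent.H73.RK

open Finset
open Pool.Agent.Helper19.MulTable

/-- the primes up to `x` with `e ∣ p - 1` -/
def PD (x e : ℕ) : Finset ℕ := (range (x + 1)).filter fun p => p.Prime ∧ e ∣ p - 1

theorem mem_PD {x e p : ℕ} : p ∈ PD x e ↔ p ≤ x ∧ p.Prime ∧ e ∣ p - 1 := by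
  unfold PD
  rw [mem_filter, mem_range, Nat.lt_succ_iff]

/-- Brun-Titchmarsh -/
theorem bt {x e : ℕ} (he : 1 ≤ e) (hx : 2 ≤ x) (h : e ^ 3 ≤ x ^ 2) :
    ((PD x e).card : ℝ) ≤ 132 * (1 / Nat.totient e) * (x / Real.log x) := by
  have hex : e ≤ x := by
    by_contra hcon
    push Not at hcon
    have h1 : x ^ 3 < e ^ 3 := Nat.pow_lt_pow_left hcon (by norm_num)
    have h2 : x ^ 2 ≤ x ^ 3 := Nat.pow_le_pow_right (by omega) (by norm_num)
    omega
  have he0 : (0 : ℝ) < e := by exact_mod_cast he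
  have hx0 : (0 : ℝ) < x := by exact_mod_cast (by omega : 0 < x)
  have hlx : 0 < Real.log x := Real.log_pos (by exact_mod_cast (by omega : 1 < x))
  have htot : (0 : ℝ) < Nat.totient e := by exact_mod_cast Nat.totient_pos.2 he
  obtain ⟨N, hN⟩ : ∃ N : ℕ, N = x / e + 1 := ⟨_, rfl⟩
  have hq : 1 ≤ x / e := (Nat.one_le_div_iff (by omega)).2 hex
  have hN2 : 2 ≤ N := by omega
  have hkey : (PD x e).card ≤ ((range N).filter (fun k => (1 + k * e).Prime)).card := by
    apply card_le_card_of_injOn (fun p => (p - 1) / e)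
    · intro p hp
      rw [mem_coe, mem_PD] at hp
      obtain ⟨hpx, hpp, hd⟩ := hp
      rw [mem_coe, mem_filter, mem_range]
      have h1 := hpp.one_lt
      refine ⟨?_, ?_⟩
      · have h2 : (p - 1) / e ≤ x / e := Nat.div_le_div_right (by omega)
        simp only
        omega
      · have h2 : 1 + (p - 1) / e * e = p := by
          rw [Nat.div_mul_cancel hd]
          omega
        simp only
        rw [h2]
        exact hpp
    · intro p hp p' hp' hpp
      rw [mem_coe, mem_PD] at hp hp'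
      have e1 := Nat.div_mul_cancel hp.2.2
      have e2 := Nat.div_mul_cancel hp'.2.2
      simp only at hpp
      rw [hpp] at e1
      have h1 := hp.2.1.one_lt
      have h2 := hp'.2.1.one_lt
      omega
  have hbt := Pool.Agent.H692R2.USS.t1_brun_titchmarsh 1 e N hN2 he
  have h1 : ((PD x e).card : ℝ) ≤ 22 * ((e : ℝ) / Nat.totient e) * N / Real.log N := by
    refine le_trans ?_ hbt
    exact_mod_cast hkey
  refine h1.trans ?_
  have hNr : (N : ℝ) ≤ 2 * (x / e) := by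
    have e1 : ((x / e : ℕ) : ℝ) ≤ (x : ℝ) / e := Nat.cast_div_le
    have e2 : 1 ≤ (x : ℝ) / e := by
      rw [le_div_iff₀ he0, one_mul]
      exact_mod_cast hex
    rw [hN]
    push_cast
    linarith
  have hN0 : (0 : ℝ) < N := by exact_mod_cast (by omega : 0 < N)
  have hlN : Real.log x / 3 ≤ Real.log N := by
    have e1 : x / e + 1 ≥ 1 := by omega
    have e2 : x < N * e := by
      rw [hN, mul_comm]
      exact Nat.lt_mul_div_succ x (by omega : 0 < e)
    have e3 : x ^ 3 ≤ N ^ 3 * e ^ 3 := by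
      rw [← mul_pow]
      exact Nat.pow_le_pow_left e2.le 3
    have e4 : x ^ 3 ≤ N ^ 3 * x ^ 2 := e3.trans (Nat.mul_le_mul_left _ h)
    have e5 : x ≤ N ^ 3 := by
      have : x * x ^ 2 ≤ N ^ 3 * x ^ 2 := by
        calc x * x ^ 2 = x ^ 3 := by ring
          _ ≤ _ := e4
      exact Nat.le_of_mul_le_mul_right this (by positivity)
    have e6 : (x : ℝ) ≤ (N : ℝ) ^ 3 := by exact_mod_cast e5
    have e7 := Real.log_le_log hx0 e6
    rw [Real.log_pow] at e7
    push_cast at e7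
    linarith
  have hlN0 : 0 < Real.log x / 3 := by positivity
  calc 22 * ((e : ℝ) / Nat.totient e) * N / Real.log N ≤
        22 * ((e : ℝ) / Nat.totient e) * (2 * (x / e)) / (Real.log x / 3) := by
        apply div_le_div₀ (by positivity) _ hlN0 hlN
        exact mul_le_mul_of_nonneg_left hNr (by positivity)
    _ = 132 * (1 / Nat.totient e) * (x / Real.log x) := by
        field_simp
        ring

theorem expand (P : Finset ℕ) (hP : ∀ q ∈ P, q.Prime) (g : ℕ → ℝ) (n : ℕ) :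
    ∏ q ∈ P.filter (· ∣ n), (1 + g q) =
      ∑ A ∈ P.powerset, if (∏ q ∈ A, q) ∣ n then ∏ q ∈ A, g q else 0 := by
  rw [prod_filter]
  have h1 : ∀ q ∈ P, (if q ∣ n then 1 + g q else 1) = 1 + (if q ∣ n then g q else 0) := by
    intro q _
    split_ifs <;> simp
  rw [prod_congr rfl h1, prod_one_add]
  refine sum_congr rfl fun A hA => ?_
  rw [prod_ite_zero]
  have h2 : (∀ q ∈ A, q ∣ n) ↔ (∏ q ∈ A, q) ∣ n := by
    constructor
    · intro h
      exact Finset.prod_primes_dvd n (fun q hq => (hP q (mem_powerset.1 hA hq)).prime) h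
    · intro h q hq
      exact (dvd_prod_of_mem _ hq).trans h
  by_cases h3 : (∏ q ∈ A, q) ∣ n
  · rw [if_pos (h2.2 h3), if_pos h3]
  · rw [if_neg (fun h => h3 (h2.1 h)), if_neg h3]

theorem totient_prod (A : Finset ℕ) (hA : ∀ q ∈ A, q.Prime) :
    Nat.totient (∏ q ∈ A, q) = ∏ q ∈ A, (q - 1) := by
  classical
  induction A using Finset.induction_on with
  | empty => simp
  | insert q A hq ih =>
    rw [prod_insert hq, prod_insert hq, Nat.totient_mul, ih fun r hr => hA r (mem_insert_of_mem hr),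
      Nat.totient_prime (hA q (mem_insert_self _ _))]
    refine Nat.Coprime.prod_right fun r hr => ?_
    refine (Nat.coprime_primes (hA q (mem_insert_self _ _)) (hA r (mem_insert_of_mem hr))).2 ?_
    rintro rfl
    exact hq hr

theorem sum_pred (P : Finset ℕ) (hP : ∀ q ∈ P, q.Prime) :
    ∑ q ∈ P, 1 / ((q : ℝ) - 1) ≤ rs P + 2 := by
  have h1 : ∀ q ∈ P, 1 / ((q : ℝ) - 1) ≤ 1 / (q : ℝ) + 2 * (1 / (q : ℝ) ^ 2) := by
    intro q hq
    have h2 : (2 : ℝ) ≤ q := by exact_mod_cast (hP q hq).two_le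
    have h3 : (0 : ℝ) < (q : ℝ) - 1 := by linarith
    have h4 : 1 / (q : ℝ) + 2 * (1 / (q : ℝ) ^ 2) = ((q : ℝ) + 2) / (q : ℝ) ^ 2 := by
      field_simp
    rw [h4, div_le_div_iff₀ h3 (by positivity)]
    nlinarith
  refine (sum_le_sum h1).trans ?_
  rw [sum_add_distrib, ← mul_sum]
  have := sum_inv_sq_le_one P hP
  unfold rs
  linarith

theorem log_three_half : (2 : ℝ) / 5 ≤ Real.log (3 / 2) := by
  have h1 : Real.log ((3 / 2 : ℝ) ^ 5) = 5 * Real.log (3 / 2) := by
    rw [Real.log_pow]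
    norm_num
  have h2 : (2 : ℝ) ≤ Real.log ((3 / 2 : ℝ) ^ 5) := by
    rw [Real.le_log_iff_exp_le (by norm_num)]
    have h3 := Real.exp_one_lt_d9
    have h4 : Real.exp 2 = Real.exp 1 ^ 2 := by
      rw [← Real.exp_nat_mul]
      norm_num
    rw [h4]
    calc Real.exp 1 ^ 2 ≤ (2.7182818286 : ℝ) ^ 2 := by
          gcongr
      _ ≤ (3 / 2 : ℝ) ^ 5 := by norm_num
  linarith

theorem om_eq (P : Finset ℕ) (n : ℕ) : om P n = ((P.filter (· ∣ n)).card : ℝ) := by
  unfold om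
  rw [card_filter]
  push_cast
  rfl

theorem many (P : Finset ℕ) (hP : ∀ q ∈ P, q.Prime) (hS : 0 < rs P) {x : ℕ} (hx : 2 ≤ x)
    (hPx : (∏ q ∈ P, q) ^ 3 ≤ x) :
    (((PD x 1).filter fun p => 3 / 2 * rs P ≤ om P (p - 1)).card : ℝ) ≤
      4000 / rs P * (x / Real.log x) := by
  classical
  set S := rs P with hSdef
  have hx0 : (0 : ℝ) < x := by exact_mod_cast (by omega : 0 < x)
  have hlx : 0 < Real.log x := Real.log_pos (by exact_mod_cast (by omega : 1 < x))
  set E := (PD x 1).filter fun p => 3 / 2 * S ≤ om P (p - 1) with hE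
  have hPos : 0 < ∏ q ∈ P, q := prod_pos fun q hq => (hP q hq).pos
  have h1 : ∑ p ∈ PD x 1, ∏ q ∈ P.filter (· ∣ p - 1), (1 + (1 / 2 : ℝ)) ≤
      132 * (x / Real.log x) * Real.exp (S / 2 + 1) := by
    rw [sum_congr rfl fun p _ => expand P hP (fun _ => 1 / 2) (p - 1), sum_comm]
    have h2 : ∀ A ∈ P.powerset, ∑ p ∈ PD x 1,
        (if (∏ q ∈ A, q) ∣ p - 1 then ∏ q ∈ A, (1 / 2 : ℝ) else 0) ≤
        132 * (x / Real.log x) * ∏ q ∈ A, (1 / 2 * (1 / ((q : ℝ) - 1))) := by
      intro A hA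
      rw [mem_powerset] at hA
      have hA' : ∀ q ∈ A, q.Prime := fun q hq => hP q (hA hq)
      have h3 : (PD x 1).filter (fun p => (∏ q ∈ A, q) ∣ p - 1) = PD x (∏ q ∈ A, q) := by
        ext p
        rw [mem_filter, mem_PD, mem_PD]
        simp only [one_dvd, and_true]
        tauto
      rw [← sum_filter, h3, sum_const, nsmul_eq_mul]
      have hpos : 0 < ∏ q ∈ A, q := prod_pos fun q hq => (hA' q hq).pos
      have h4 : (∏ q ∈ A, q) ^ 3 ≤ x ^ 2 := by
        have h5 : (∏ q ∈ A, q) ≤ ∏ q ∈ P, q :=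
          Nat.le_of_dvd hPos (prod_dvd_prod_of_subset _ _ _ hA)
        calc (∏ q ∈ A, q) ^ 3 ≤ (∏ q ∈ P, q) ^ 3 := Nat.pow_le_pow_left h5 3
          _ ≤ x := hPx
          _ ≤ x ^ 2 := Nat.le_self_pow (by norm_num) x
      have h5 := bt hpos hx h4
      have h6 : (Nat.totient (∏ q ∈ A, q) : ℝ) = ∏ q ∈ A, ((q : ℝ) - 1) := by
        rw [totient_prod A hA']
        push_cast
        refine prod_congr rfl fun q hq => ?_
        rw [Nat.cast_sub (hA' q hq).one_le, Nat.cast_one]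
      have h7 : (0 : ℝ) ≤ ∏ q ∈ A, (1 / 2 : ℝ) := prod_nonneg fun _ _ => by norm_num
      calc ((PD x (∏ q ∈ A, q)).card : ℝ) * ∏ q ∈ A, (1 / 2 : ℝ) ≤
            (132 * (1 / Nat.totient (∏ q ∈ A, q)) * (x / Real.log x)) * ∏ q ∈ A, (1 / 2 : ℝ) :=
              mul_le_mul_of_nonneg_right h5 h7
        _ = _ := by
              have h8 : ∏ q ∈ A, (1 / ((q : ℝ) - 1)) = 1 / ∏ q ∈ A, ((q : ℝ) - 1) := by
                simp_rw [one_div]
                rw [prod_inv_distrib]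
              rw [h6, prod_mul_distrib, h8]
              ring
    refine (sum_le_sum h2).trans ?_
    rw [← mul_sum, ← prod_one_add]
    refine mul_le_mul_of_nonneg_left ?_ (by positivity)
    have h3 : ∀ q ∈ P, (0 : ℝ) ≤ 1 + 1 / 2 * (1 / ((q : ℝ) - 1)) ∧
        1 + 1 / 2 * (1 / ((q : ℝ) - 1)) ≤ Real.exp (1 / 2 * (1 / ((q : ℝ) - 1))) := by
      intro q hq
      have h4 : (2 : ℝ) ≤ q := by exact_mod_cast (hP q hq).two_le
      have h5 : (0 : ℝ) < (q : ℝ) - 1 := by linarith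
      have h6 : 0 ≤ 1 / 2 * (1 / ((q : ℝ) - 1)) := by positivity
      refine ⟨by linarith, ?_⟩
      have := Real.add_one_le_exp (1 / 2 * (1 / ((q : ℝ) - 1)))
      linarith
    refine (prod_le_prod (fun q hq => (h3 q hq).1) fun q hq => (h3 q hq).2).trans ?_
    rw [← Real.exp_sum, ← mul_sum]
    refine Real.exp_le_exp.2 ?_
    have := sum_pred P hP
    rw [hSdef]
    linarith
  have h2 : (E.card : ℝ) * Real.exp (3 / 5 * S) ≤
      ∑ p ∈ PD x 1, ∏ q ∈ P.filter (· ∣ p - 1), (1 + (1 / 2 : ℝ)) := by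
    rw [← nsmul_eq_mul, ← sum_const]
    have hsub : E ⊆ PD x 1 := filter_subset _ _
    refine le_trans (sum_le_sum (f := fun _ => Real.exp (3 / 5 * S))
      (g := fun p => ∏ q ∈ P.filter (· ∣ p - 1), (1 + (1 / 2 : ℝ))) fun p hp => ?_)
      (sum_le_sum_of_subset_of_nonneg hsub fun p _ _ => prod_nonneg fun _ _ => by norm_num)
    rw [hE, mem_filter] at hp
    have h3 := hp.2
    rw [om_eq] at h3
    rw [prod_const]
    have h4 : (1 + 1 / 2 : ℝ) = 3 / 2 := by norm_num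
    rw [h4, ← Real.exp_log (show (0 : ℝ) < 3 / 2 by norm_num), ← Real.exp_nat_mul]
    refine Real.exp_le_exp.2 ?_
    have h5 := log_three_half
    nlinarith
  have h3 : (E.card : ℝ) ≤ 132 * (x / Real.log x) * Real.exp (1 - S / 10) := by
    have h4 : (E.card : ℝ) * Real.exp (3 / 5 * S) ≤
        132 * (x / Real.log x) * Real.exp (1 - S / 10) * Real.exp (3 / 5 * S) := by
      refine (h2.trans h1).trans (le_of_eq ?_)
      rw [mul_assoc (132 * ((x : ℝ) / Real.log x)), ← Real.exp_add]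
      congr 2
      ring
    exact le_of_mul_le_mul_right h4 (Real.exp_pos _)
  refine h3.trans ?_
  have h4 : Real.exp (1 - S / 10) ≤ 2.7182818286 * (10 / S) := by
    rw [Real.exp_sub]
    have h5 := Real.exp_one_lt_d9.le
    have h6 : S / 10 ≤ Real.exp (S / 10) := by
      have := Real.add_one_le_exp (S / 10)
      linarith
    have h7 : 0 < S / 10 := by positivity
    calc Real.exp 1 / Real.exp (S / 10) ≤ 2.7182818286 / (S / 10) :=
          div_le_div₀ (by norm_num) h5 h7 h6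
      _ = _ := by field_simp
  calc 132 * (x / Real.log x) * Real.exp (1 - S / 10) ≤
        132 * (x / Real.log x) * (2.7182818286 * (10 / S)) :=
          mul_le_mul_of_nonneg_left h4 (by positivity)
    _ = (132 * 2.7182818286 * 10) / S * (x / Real.log x) := by ring
    _ ≤ 4000 / S * (x / Real.log x) := by
          refine mul_le_mul_of_nonneg_right ?_ (by positivity)
          refine div_le_div_of_nonneg_right ?_ hS.le
          norm_num

theorem squares (P : Finset ℕ) (hP : ∀ q ∈ P, q.Prime) (hS : 0 < rs P) {x : ℕ} (hx : 2 ≤ x)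
    (hPx : (∏ q ∈ P, q) ^ 3 ≤ x) :
    (((PD x 1).filter fun p => rs P / 10 ≤ om2 P (p - 1)).card : ℝ) ≤
      4000 / rs P * (x / Real.log x) := by
  classical
  set S := rs P with hSdef
  have hx0 : (0 : ℝ) < x := by exact_mod_cast (by omega : 0 < x)
  have hlx : 0 < Real.log x := Real.log_pos (by exact_mod_cast (by omega : 1 < x))
  set E := (PD x 1).filter fun p => S / 10 ≤ om2 P (p - 1) with hE
  have hPos : 0 < ∏ q ∈ P, q := prod_pos fun q hq => (hP q hq).pos
  have h1 : ∑ p ∈ PD x 1, om2 P (p - 1) ≤ 264 * (x / Real.log x) := by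
    unfold om2
    rw [sum_comm]
    have h2 : ∀ q ∈ P, ∑ p ∈ PD x 1, (if q ^ 2 ∣ p - 1 then (1 : ℝ) else 0) ≤
        264 * (x / Real.log x) * (1 / (q : ℝ) ^ 2) := by
      intro q hq
      have h3 : (PD x 1).filter (fun p => q ^ 2 ∣ p - 1) = PD x (q ^ 2) := by
        ext p
        rw [mem_filter, mem_PD, mem_PD]
        simp only [one_dvd, and_true]
        tauto
      rw [← sum_filter, h3, sum_const, nsmul_eq_mul, mul_one]
      have hqp := hP q hq
      have h4 : (q ^ 2) ^ 3 ≤ x ^ 2 := by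
        have h5 : q ≤ ∏ q ∈ P, q := Nat.le_of_dvd hPos (dvd_prod_of_mem _ hq)
        calc (q ^ 2) ^ 3 = (q ^ 3) ^ 2 := by ring
          _ ≤ ((∏ q ∈ P, q) ^ 3) ^ 2 := Nat.pow_le_pow_left (Nat.pow_le_pow_left h5 3) 2
          _ ≤ x ^ 2 := Nat.pow_le_pow_left hPx 2
      have h5 := bt (pow_pos hqp.pos 2) hx h4
      refine h5.trans ?_
      rw [Nat.totient_prime_pow hqp (by norm_num)]
      have h6 : (2 : ℝ) ≤ q := by exact_mod_cast hqp.two_le
      rw [Nat.cast_mul, Nat.cast_sub hqp.one_le]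
      push_cast
      rw [pow_one]
      have h7 : 1 / ((q : ℝ) * ((q : ℝ) - 1)) ≤ 2 * (1 / (q : ℝ) ^ 2) := by
        rw [mul_one_div, div_le_div_iff₀ (by nlinarith) (by positivity)]
        nlinarith
      have h8 : 0 ≤ (x : ℝ) / Real.log x := by positivity
      nlinarith
    refine (sum_le_sum h2).trans ?_
    rw [← mul_sum]
    have h3 := sum_inv_sq_le_one P hP
    have h4 : 0 ≤ 264 * ((x : ℝ) / Real.log x) := by positivity
    nlinarith
  have h2 : (E.card : ℝ) * (S / 10) ≤ ∑ p ∈ PD x 1, om2 P (p - 1) := by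
    rw [← nsmul_eq_mul, ← sum_const]
    have hsub : E ⊆ PD x 1 := filter_subset _ _
    refine le_trans (sum_le_sum (f := fun _ => S / 10)
      (g := fun p => om2 P (p - 1)) fun p hp => ?_)
      (sum_le_sum_of_subset_of_nonneg hsub fun p _ _ => om2_nonneg P _)
    rw [hE, mem_filter] at hp
    exact hp.2
  have h3 := h2.trans h1
  have h8 : 0 ≤ (x : ℝ) / Real.log x := by positivity
  rw [div_mul_eq_mul_div, le_div_iff₀ hS]
  nlinarith

theorem ratio_eq {d : ℕ} (hd : 1 ≤ d) :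
    (d : ℝ) / Nat.totient d = ∏ p ∈ d.primeFactors, (1 - (p : ℝ)⁻¹)⁻¹ := by
  have hd0 : (0 : ℝ) < d := by exact_mod_cast hd
  have h1 : (Nat.totient d : ℝ) = d * ∏ p ∈ d.primeFactors, (1 - (p : ℝ)⁻¹) := by
    have h := Nat.totient_eq_mul_prod_factors d
    have h' : ((Nat.totient d : ℚ) : ℝ) =
        (((d : ℚ) * ∏ p ∈ d.primeFactors, (1 - (p : ℚ)⁻¹) : ℚ) : ℝ) := by rw [h]
    push_cast at h'
    exact h'
  rw [h1, Finset.prod_inv_distrib, div_mul_eq_div_div, div_self hd0.ne', one_div]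

theorem sum_ratio_sq (M : ℕ) :
    ∑ m ∈ Ioc 0 M, ((m : ℝ) / Nat.totient m) ^ 2 ≤ 500 * M := by
  classical
  set P : Finset ℕ := (Ioc 0 M).filter Nat.Prime with hP
  have hPp : ∀ q ∈ P, q.Prime := fun q hq => (mem_filter.1 hq).2
  set g : ℕ → ℝ := fun q => ((1 - (q : ℝ)⁻¹)⁻¹) ^ 2 - 1 with hg
  have hg1 : ∀ q ∈ P, 0 ≤ g q ∧ g q ≤ 6 / q := by
    intro q hq
    have h1 : (2 : ℝ) ≤ q := by exact_mod_cast (hPp q hq).two_le
    have h2 : (1 - (q : ℝ)⁻¹)⁻¹ = q / (q - 1) := by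
      have : (q : ℝ) - 1 ≠ 0 := by linarith
      field_simp
    have h3 : (0 : ℝ) < (q : ℝ) - 1 := by linarith
    have h4 : g q = (2 * q - 1) / ((q : ℝ) - 1) ^ 2 := by
      rw [hg]
      simp only
      rw [h2]
      field_simp
      ring
    rw [h4]
    refine ⟨div_nonneg (by linarith) (by positivity), ?_⟩
    rw [div_le_div_iff₀ (by positivity) (by linarith)]
    nlinarith
  have h1 : ∀ m ∈ Ioc 0 M, ((m : ℝ) / Nat.totient m) ^ 2 =
      ∏ q ∈ P.filter (· ∣ m), (1 + g q) := by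
    intro m hm
    rw [mem_Ioc] at hm
    rw [ratio_eq (by omega), ← prod_pow]
    have h2 : m.primeFactors = P.filter (· ∣ m) := by
      ext q
      rw [Nat.mem_primeFactors, mem_filter, hP, mem_filter, mem_Ioc]
      constructor
      · rintro ⟨h3, h4, _⟩
        have h5 := Nat.le_of_dvd hm.1 h4
        exact ⟨⟨⟨h3.pos, h5.trans hm.2⟩, h3⟩, h4⟩
      · rintro ⟨⟨_, h3⟩, h4⟩
        exact ⟨h3, h4, by omega⟩
    rw [h2]
    refine prod_congr rfl fun q _ => ?_
    rw [hg]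
    simp only
    ring
  rw [sum_congr rfl h1, sum_congr rfl fun m _ => expand P hPp g m, sum_comm]
  have h2 : ∀ A ∈ P.powerset, ∑ m ∈ Ioc 0 M,
      (if (∏ q ∈ A, q) ∣ m then ∏ q ∈ A, g q else 0) ≤ M * ∏ q ∈ A, (g q * (1 / (q : ℝ))) := by
    intro A hA
    rw [mem_powerset] at hA
    have h3 : ∑ m ∈ Ioc 0 M, (if (∏ q ∈ A, q) ∣ m then ∏ q ∈ A, g q else 0) =
        ((M / (∏ q ∈ A, q) : ℕ) : ℝ) * ∏ q ∈ A, g q := by
      rw [← sum_ite_dvd, sum_mul]
      refine sum_congr rfl fun m _ => ?_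
      split_ifs <;> simp
    rw [h3]
    have h4 : ((M / (∏ q ∈ A, q) : ℕ) : ℝ) ≤ M / ((∏ q ∈ A, q : ℕ) : ℝ) := Nat.cast_div_le
    have h5 : 0 ≤ ∏ q ∈ A, g q := prod_nonneg fun q hq => (hg1 q (hA hq)).1
    have h6 : ∏ q ∈ A, (1 / (q : ℝ)) = 1 / ((∏ q ∈ A, q : ℕ) : ℝ) := by
      simp_rw [one_div]
      rw [prod_inv_distrib]
      push_cast
      rfl
    calc ((M / (∏ q ∈ A, q) : ℕ) : ℝ) * ∏ q ∈ A, g q ≤
          (M / ((∏ q ∈ A, q : ℕ) : ℝ)) * ∏ q ∈ A, g q := mul_le_mul_of_nonneg_right h4 h5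
      _ = _ := by
          rw [prod_mul_distrib, h6]
          ring
  refine (sum_le_sum h2).trans ?_
  rw [← mul_sum, ← prod_one_add]
  have h3 : ∏ q ∈ P, (1 + g q * (1 / (q : ℝ))) ≤ Real.exp 6 := by
    have h4 : ∀ q ∈ P, 0 ≤ 1 + g q * (1 / (q : ℝ)) ∧
        1 + g q * (1 / (q : ℝ)) ≤ Real.exp (6 * (1 / (q : ℝ) ^ 2)) := by
      intro q hq
      obtain ⟨h5, h6⟩ := hg1 q hq
      have h7 : (2 : ℝ) ≤ q := by exact_mod_cast (hPp q hq).two_le
      have h8 : (0 : ℝ) ≤ 1 / (q : ℝ) := by positivity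
      refine ⟨by positivity, ?_⟩
      have h9 := Real.add_one_le_exp (6 * (1 / (q : ℝ) ^ 2))
      have h10 : g q * (1 / (q : ℝ)) ≤ 6 * (1 / (q : ℝ) ^ 2) := by
        calc g q * (1 / (q : ℝ)) ≤ 6 / q * (1 / (q : ℝ)) := mul_le_mul_of_nonneg_right h6 h8
          _ = _ := by
            field_simp
      linarith
    refine (prod_le_prod (fun q hq => (h4 q hq).1) fun q hq => (h4 q hq).2).trans ?_
    rw [← Real.exp_sum, ← mul_sum]
    refine Real.exp_le_exp.2 ?_
    have := sum_inv_sq_le_one P hPp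
    linarith
  have h4 : Real.exp 6 ≤ 500 := by
    have h5 : Real.exp 6 = Real.exp 1 ^ 6 := by
      rw [← Real.exp_nat_mul]
      norm_num
    rw [h5]
    calc Real.exp 1 ^ 6 ≤ (2.7182818286 : ℝ) ^ 6 := by
          have := Real.exp_one_lt_d9.le
          gcongr
      _ ≤ 500 := by norm_num
  have h5 : (0 : ℝ) ≤ M := Nat.cast_nonneg _
  nlinarith

/-- primes with a divisor of `p - 1` in a short range with an abnormal number of prime factors -/
theorem near (P : Finset ℕ) (hP : ∀ q ∈ P, q.Prime) (hS : 0 < rs P) {x A B : ℕ} (hx : 2 ≤ x)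
    (hA : 1 ≤ A) (hB : B ^ 3 ≤ x ^ 2) (hPB : P.card ≤ B) :
    (((PD x 1).filter fun p => ∃ m ∈ Icc A B, m ∣ p - 1 ∧ rs P / 5 ≤ |om P m - rs P|).card : ℝ) ≤
      132 * (x / Real.log x) * (B / A * Real.sqrt (37500 / rs P)) := by
  classical
  set S := rs P with hSdef
  have hx0 : (0 : ℝ) < x := by exact_mod_cast (by omega : 0 < x)
  have hlx : 0 < Real.log x := Real.log_pos (by exact_mod_cast (by omega : 1 < x))
  have hA0 : (0 : ℝ) < A := by exact_mod_cast hA
  set T := (Icc A B).filter fun m => S / 5 ≤ |om P m - S| with hT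
  set U := (Ioc 0 B).filter fun m => S / 5 ≤ |om P m - S| with hU
  have hTU : T ⊆ U := by
    intro m hm
    rw [hT, mem_filter, mem_Icc] at hm
    rw [hU, mem_filter, mem_Ioc]
    exact ⟨⟨by omega, hm.1.2⟩, hm.2⟩
  have h1 : ((PD x 1).filter fun p => ∃ m ∈ Icc A B, m ∣ p - 1 ∧ S / 5 ≤ |om P m - S|) ⊆
      T.biUnion fun m => PD x m := by
    intro p hp
    rw [mem_filter, mem_PD] at hp
    obtain ⟨⟨h2, h3, _⟩, m, hm, h4, h5⟩ := hp
    rw [mem_biUnion]
    exact ⟨m, mem_filter.2 ⟨hm, h5⟩, mem_PD.2 ⟨h2, h3, h4⟩⟩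
  have h2 : ((((PD x 1).filter fun p => ∃ m ∈ Icc A B, m ∣ p - 1 ∧
      S / 5 ≤ |om P m - S|).card : ℕ) : ℝ) ≤ ∑ m ∈ T, ((PD x m).card : ℝ) := by
    exact_mod_cast (card_le_card h1).trans card_biUnion_le
  refine h2.trans ?_
  have h3 : ∀ m ∈ T, ((PD x m).card : ℝ) ≤
      132 * (x / Real.log x) * (1 / A) * ((m : ℝ) / Nat.totient m) := by
    intro m hm
    rw [hT, mem_filter, mem_Icc] at hm
    have hm1 : 1 ≤ m := by omega
    have hm0 : (0 : ℝ) < m := by exact_mod_cast hm1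
    have h4 := bt hm1 hx ((Nat.pow_le_pow_left hm.1.2 3).trans hB)
    have h5 : (0 : ℝ) < Nat.totient m := by exact_mod_cast Nat.totient_pos.2 hm1
    have h6 : (A : ℝ) ≤ m := by exact_mod_cast hm.1.1
    refine h4.trans ?_
    have h7 : (1 : ℝ) / Nat.totient m ≤ 1 / A * ((m : ℝ) / Nat.totient m) := by
      rw [div_mul_div_comm, one_mul, div_le_div_iff₀ h5 (by positivity)]
      nlinarith
    have h8 : 0 ≤ 132 * ((x : ℝ) / Real.log x) := by positivity
    calc 132 * (1 / (Nat.totient m : ℝ)) * (x / Real.log x) =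
          132 * ((x : ℝ) / Real.log x) * (1 / (Nat.totient m : ℝ)) := by ring
      _ ≤ 132 * ((x : ℝ) / Real.log x) * (1 / A * ((m : ℝ) / Nat.totient m)) :=
          mul_le_mul_of_nonneg_left h7 h8
      _ = _ := by ring
  refine (sum_le_sum h3).trans ?_
  rw [← mul_sum]
  have h4 : ∑ m ∈ T, (m : ℝ) / Nat.totient m ≤ B * Real.sqrt (37500 / S) := by
    have h5 : ∑ m ∈ T, (m : ℝ) / Nat.totient m ≤ ∑ m ∈ U, 1 * ((m : ℝ) / Nat.totient m) := by
      simp_rw [one_mul]
      exact sum_le_sum_of_subset_of_nonneg hTU fun _ _ _ => by positivity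
    refine h5.trans ((le_abs_self _).trans ?_)
    have h6 := sum_mul_sq_le_sq_mul_sq U (fun _ => (1 : ℝ)) (fun m => (m : ℝ) / Nat.totient m)
    have h7 : ∑ m ∈ U, ((m : ℝ) / Nat.totient m) ^ 2 ≤ 500 * B :=
      (sum_le_sum_of_subset_of_nonneg (filter_subset _ _) fun _ _ _ => sq_nonneg _).trans
        (sum_ratio_sq B)
    have h8 := cheb P hP B (S / 5) (by positivity)
    have h9 : (U.card : ℝ) ≤ 75 * B / S := by
      rw [le_div_iff₀ hS]
      have h10 : (P.card : ℝ) ≤ B := by exact_mod_cast hPB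
      have h11 : (U.card : ℝ) * (S / 5) ^ 2 ≤ 3 * B * S := by
        refine h8.trans ?_
        rw [← hSdef]
        nlinarith
      have h12 : (U.card : ℝ) * S * S ≤ 75 * B * S := by nlinarith
      exact le_of_mul_le_mul_right h12 hS
    simp only [one_pow, sum_const, nsmul_eq_mul, mul_one] at h6
    have h10 : (∑ m ∈ U, 1 * ((m : ℝ) / Nat.totient m)) ^ 2 ≤
        (B * Real.sqrt (37500 / S)) ^ 2 := by
      refine h6.trans ?_
      rw [mul_pow, Real.sq_sqrt (by positivity)]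
      calc (U.card : ℝ) * ∑ m ∈ U, ((m : ℝ) / Nat.totient m) ^ 2 ≤
            (75 * B / S) * (500 * B) := by
              apply mul_le_mul h9 h7 (sum_nonneg fun _ _ => sq_nonneg _) (by positivity)
        _ = _ := by ring
    exact abs_le_of_sq_le_sq h10 (by positivity)
  calc 132 * ((x : ℝ) / Real.log x) * (1 / A) * ∑ m ∈ T, (m : ℝ) / Nat.totient m ≤
        132 * ((x : ℝ) / Real.log x) * (1 / A) * (B * Real.sqrt (37500 / S)) :=
        mul_le_mul_of_nonneg_left h4 (by positivity)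
    _ = _ := by ring

open scoped Classical in
/-- **Erdős.** Almost no shifted prime `p - 1` has a divisor near `√p`. -/
theorem erd (a c : ℕ) (ha : 1 ≤ a) (hc : 1 ≤ c) {κ : ℝ} (hκ : 0 < κ) : ∃ x₀ : ℕ, ∀ x ≥ x₀,
    (((PD x 1).filter fun p => x < c * p ∧ ∃ d, d ∣ p - 1 ∧ Nat.sqrt x ≤ a * d ∧
      d ≤ a * Nat.sqrt x).card : ℝ) ≤ κ * (x / Real.log x) := by
  classical
  have ha0 : (0 : ℝ) < a := by exact_mod_cast ha
  have hc0 : (0 : ℝ) < c := by exact_mod_cast hc
  obtain ⟨t, ht⟩ : ∃ t : ℝ, t = κ / (2 * (132 * (16 * a ^ 2 * c))) := ⟨_, rfl⟩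
  have ht0 : 0 < t := by rw [ht]; positivity
  obtain ⟨P, hP, hPS⟩ := exists_primes_large_rs (16000 / κ + 37500 / t ^ 2)
  have hS : 0 < rs P := lt_of_lt_of_le (by positivity) hPS
  have hS1 : 16000 / κ ≤ rs P := le_trans (by have : 0 ≤ 37500 / t ^ 2 := by positivity
                                              linarith) hPS
  have hS2 : 37500 / t ^ 2 ≤ rs P := le_trans (by have : 0 ≤ 16000 / κ := by positivity
                                                  linarith) hPS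
  obtain ⟨R, hR⟩ : ∃ R : ℕ, R = 64 * a ^ 3 + 2 * a * c + P.card + (∏ q ∈ P, q) ^ 3 + 2 := ⟨_, rfl⟩
  refine ⟨R ^ 2, fun x hx => ?_⟩
  obtain ⟨r, hr⟩ : ∃ r : ℕ, r = Nat.sqrt x := ⟨_, rfl⟩
  rw [← hr]
  have hRr : R ≤ r := by
    rw [hr, Nat.le_sqrt']
    exact hx
  have hr2 : r ^ 2 ≤ x := by
    rw [hr]
    exact Nat.sqrt_le' x
  have hr3 : x < (r + 1) ^ 2 := by
    rw [hr]
    exact Nat.lt_succ_sqrt' x
  have hprod : 0 ≤ (∏ q ∈ P, q) ^ 3 := Nat.zero_le _
  have g1 : 64 * a ^ 3 ≤ r := by omega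
  have g2 : 2 * a * c ≤ r := by omega
  have g3 : P.card ≤ r := by omega
  have g4 : (∏ q ∈ P, q) ^ 3 ≤ r := by omega
  have g5 : 2 ≤ r := by omega
  have hrx : r ≤ x := (Nat.le_self_pow (by norm_num) r).trans hr2
  have hx2 : 2 ≤ x := by omega
  have hx0 : (0 : ℝ) < x := by exact_mod_cast (by omega : 0 < x)
  have hlx : 0 < Real.log x := Real.log_pos (by exact_mod_cast (by omega : 1 < x))
  have hxl : 0 < (x : ℝ) / Real.log x := by positivity
  obtain ⟨k, hk⟩ : ∃ k : ℕ, k = 2 * a * c := ⟨_, rfl⟩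
  have hk1 : 1 ≤ k := by
    rw [hk]
    exact Nat.mul_pos (Nat.mul_pos (by norm_num) ha) hc
  obtain ⟨A, hA⟩ : ∃ A : ℕ, A = r / k := ⟨_, rfl⟩
  have hA1 : 1 ≤ A := by
    rw [hA]
    exact (Nat.one_le_div_iff (by omega)).2 (by rw [hk]; exact g2)
  have hBcube : (4 * a * r) ^ 3 ≤ x ^ 2 := by
    calc (4 * a * r) ^ 3 = (64 * a ^ 3) * r ^ 3 := by ring
      _ ≤ r * r ^ 3 := Nat.mul_le_mul_right _ g1
      _ = (r ^ 2) ^ 2 := by ring
      _ ≤ x ^ 2 := Nat.pow_le_pow_left hr2 2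
  have hPB : P.card ≤ 4 * a * r := by
    refine g3.trans ?_
    calc r = 1 * r := (one_mul r).symm
      _ ≤ 4 * a * r := Nat.mul_le_mul_right _ (by omega)
  have n1 := many P hP hS hx2 (g4.trans hrx)
  have n2 := squares P hP hS hx2 (g4.trans hrx)
  have n3 := near P hP hS hx2 hA1 hBcube hPB
  have hsub : ((PD x 1).filter fun p => x < c * p ∧ ∃ d, d ∣ p - 1 ∧ r ≤ a * d ∧ d ≤ a * r) ⊆
      (((PD x 1).filter fun p => 3 / 2 * rs P ≤ om P (p - 1)) ∪
      ((PD x 1).filter fun p => rs P / 10 ≤ om2 P (p - 1))) ∪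
      ((PD x 1).filter fun p => ∃ m ∈ Icc A (4 * a * r), m ∣ p - 1 ∧
        rs P / 5 ≤ |om P m - rs P|) := by
    intro p hp
    rw [mem_filter] at hp
    obtain ⟨hpx, hcp, d, ⟨m, hm⟩, hd1, hd2⟩ := hp
    rw [mem_union, mem_union, mem_filter, mem_filter, mem_filter]
    by_cases h1 : 3 / 2 * rs P ≤ om P (p - 1)
    · exact Or.inl (Or.inl ⟨hpx, h1⟩)
    by_cases h2 : rs P / 10 ≤ om2 P (p - 1)
    · exact Or.inl (Or.inr ⟨hpx, h2⟩)
    right
    refine ⟨hpx, ?_⟩
    rw [mem_PD] at hpx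
    obtain ⟨hpx, hpp, _⟩ := hpx
    push Not at h1 h2
    have h3 := om_mul_le P d m
    rw [← hm] at h3
    have hp2 := hpp.two_le
    have hd0 : 0 < d := by
      rcases Nat.eq_zero_or_pos d with h | h
      · rw [h] at hd1
        omega
      · exact h
    have hmlow : r ≤ k * m := by
      -- `c (p - 1) ≥ x - c`
      have e1 : c * (p - 1) = c * (d * m) := by rw [hm]
      have e2 : c * p = c * (p - 1) + c := by
        have : p = (p - 1) + 1 := by omega
        conv_lhs => rw [this]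
        ring
      have e3 : c * (d * m) ≤ c * ((a * r) * m) :=
        Nat.mul_le_mul_left _ (Nat.mul_le_mul_right _ hd2)
      have e4 : 2 * c ≤ r ^ 2 := by
        have : 2 * 1 * c ≤ 2 * a * c := Nat.mul_le_mul_right _ (by omega)
        have h5 : r ≤ r ^ 2 := Nat.le_self_pow (by norm_num) r
        omega
      have e5 : r ^ 2 ≤ 2 * (c * ((a * r) * m)) := by omega
      have e6 : r * r ≤ (k * m) * r := by
        calc r * r = r ^ 2 := by ring
          _ ≤ 2 * (c * ((a * r) * m)) := e5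
          _ = (k * m) * r := by rw [hk]; ring
      exact Nat.le_of_mul_le_mul_right e6 (by omega)
    have hdlow : r ≤ k * d := by
      refine hd1.trans (Nat.mul_le_mul_right _ ?_)
      rw [hk]
      nlinarith
    have hmup : m ≤ 4 * a * r := by
      have e1 : m * r ≤ a * (p - 1) := by
        calc m * r ≤ m * (a * d) := Nat.mul_le_mul_left _ hd1
          _ = a * (p - 1) := by rw [hm]; ring
      have e2 : a * (p - 1) ≤ a * x := Nat.mul_le_mul_left _ (by omega)
      have e3 : x ≤ 4 * r ^ 2 := by nlinarith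
      have e4 : m * r ≤ (4 * a * r) * r := by
        calc m * r ≤ a * x := e1.trans e2
          _ ≤ a * (4 * r ^ 2) := Nat.mul_le_mul_left _ e3
          _ = _ := by ring
      exact Nat.le_of_mul_le_mul_right e4 (by omega)
    have hdup : d ≤ 4 * a * r := by
      refine hd2.trans (Nat.mul_le_mul_right _ (by omega))
    have hAle : ∀ n, r ≤ k * n → A ≤ n := by
      intro n hn
      rw [hA]
      exact Nat.div_le_of_le_mul hn
    by_cases h4 : om P d ≤ 4 / 5 * rs P
    · refine ⟨d, mem_Icc.2 ⟨hAle d hdlow, hdup⟩, ⟨m, hm⟩, ?_⟩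
      rw [abs_sub_comm]
      refine le_trans ?_ (le_abs_self _)
      linarith
    · refine ⟨m, mem_Icc.2 ⟨hAle m hmlow, hmup⟩, ⟨d, by rw [hm]; ring⟩, ?_⟩
      rw [abs_sub_comm]
      refine le_trans ?_ (le_abs_self _)
      push Not at h4
      linarith
  have hcard : (((PD x 1).filter fun p => x < c * p ∧ ∃ d, d ∣ p - 1 ∧ r ≤ a * d ∧
      d ≤ a * r).card : ℝ) ≤ 4000 / rs P * (x / Real.log x) + 4000 / rs P * (x / Real.log x) +
      132 * (x / Real.log x) * ((4 * a * r : ℕ) / A * Real.sqrt (37500 / rs P)) := by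
    have h1 := (card_le_card hsub).trans ((card_union_le _ _).trans
      (Nat.add_le_add_right (card_union_le _ _) _))
    have h2 : (((PD x 1).filter fun p => x < c * p ∧ ∃ d, d ∣ p - 1 ∧ r ≤ a * d ∧
      d ≤ a * r).card : ℝ) ≤ (((PD x 1).filter fun p => 3 / 2 * rs P ≤ om P (p - 1)).card : ℝ) +
        ((PD x 1).filter fun p => rs P / 10 ≤ om2 P (p - 1)).card +
        ((PD x 1).filter fun p => ∃ m ∈ Icc A (4 * a * r), m ∣ p - 1 ∧
        rs P / 5 ≤ |om P m - rs P|).card := by exact_mod_cast h1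
    linarith
  refine hcard.trans ?_
  have m1 : 4000 / rs P ≤ κ / 4 := by
    rw [div_le_div_iff₀ hS (by norm_num)]
    rw [div_le_iff₀ hκ] at hS1
    linarith
  have m2 : Real.sqrt (37500 / rs P) ≤ t := by
    rw [Real.sqrt_le_left ht0.le, div_le_iff₀ hS]
    rw [div_le_iff₀ (by positivity)] at hS2
    linarith
  have m3 : ((4 * a * r : ℕ) : ℝ) / A ≤ 16 * a ^ 2 * c := by
    rw [div_le_iff₀ (by exact_mod_cast hA1)]
    have e1 : r ≤ 2 * (k * A) := by
      have e2 := Nat.div_add_mod r k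
      have e3 := Nat.mod_lt r hk1
      rw [← hA] at e2
      have e4 : k ≤ k * A := Nat.le_mul_of_pos_right _ hA1
      omega
    have e2 : (4 * a * r : ℕ) ≤ 16 * a ^ 2 * c * A := by
      calc 4 * a * r ≤ 4 * a * (2 * (k * A)) := Nat.mul_le_mul_left _ e1
        _ = 16 * a ^ 2 * c * A := by rw [hk]; ring
    exact_mod_cast e2
  have m4 : 132 * ((x : ℝ) / Real.log x) * ((4 * a * r : ℕ) / A * Real.sqrt (37500 / rs P)) ≤
      132 * (x / Real.log x) * ((16 * a ^ 2 * c) * t) := by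
    refine mul_le_mul_of_nonneg_left ?_ (by positivity)
    exact mul_le_mul m3 m2 (Real.sqrt_nonneg _) (by positivity)
  have m5 : 132 * ((x : ℝ) / Real.log x) * ((16 * a ^ 2 * c) * t) = κ / 2 * (x / Real.log x) := by
    rw [ht]
    field_simp
  have m6 : 4000 / rs P * ((x : ℝ) / Real.log x) ≤ κ / 4 * (x / Real.log x) :=
    mul_le_mul_of_nonneg_right m1 hxl.le
  linarith

end Pool.Agent.H73.RK
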