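import Pool.Agent.H73.RK.Erd

set_option autoImplicit false

/-! Pairs of primes `p, q` for which `p - 1` and `q - 1` have a large common divisor -/

namespace Pool.Agent.H73.RK

open Finset

theorem phi_bound (e : ℕ) : 1 / (Nat.totient e : ℝ) ^ 2 ≤ 100 * ((e : ℝ) ^ (3 / 2 : ℝ))⁻¹ := by
  rcases Nat.eq_zero_or_pos e with h | h
  · rw [h]
    simp
  have he : (1 : ℝ) ≤ e := by exact_mod_cast h
  have he0 : (0 : ℝ) < e := by linarith
  have h1 := Pool.Agent.N943.DS.tot_le e h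
  have h2 := Real.log_le_rpow_div he0.le (show (0 : ℝ) < 1 / 4 by norm_num)
  have h3 : 1 ≤ (e : ℝ) ^ (1 / 4 : ℝ) := Real.one_le_rpow he (by norm_num)
  have h4 : (e : ℝ) / Nat.totient e ≤ 10 * (e : ℝ) ^ (1 / 4 : ℝ) := by
    refine h1.trans ?_
    rw [div_div_eq_mul_div, div_one] at h2
    linarith
  have hphi : (0 : ℝ) < Nat.totient e := by exact_mod_cast Nat.totient_pos.2 h
  have h5 : ((e : ℝ) / Nat.totient e) ^ 2 ≤ 100 * (e : ℝ) ^ (1 / 2 : ℝ) := by
    have h6 : (10 * (e : ℝ) ^ (1 / 4 : ℝ)) ^ 2 = 100 * (e : ℝ) ^ (1 / 2 : ℝ) := by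
      rw [mul_pow, ← Real.rpow_natCast ((e : ℝ) ^ (1 / 4 : ℝ)) 2, ← Real.rpow_mul he0.le]
      norm_num
    rw [← h6]
    exact pow_le_pow_left₀ (by positivity) h4 2
  have h6 : (e : ℝ) ^ 2 * ((e : ℝ) ^ (3 / 2 : ℝ))⁻¹ = (e : ℝ) ^ (1 / 2 : ℝ) := by
    rw [← Real.rpow_natCast, ← Real.rpow_neg he0.le, ← Real.rpow_add he0]
    norm_num
  rw [div_pow, div_le_iff₀ (by positivity), ← h6] at h5
  rw [div_le_iff₀ (by positivity)]
  have h7 : (0 : ℝ) < (e : ℝ) ^ 2 := by positivity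
  have h8 : (e : ℝ) ^ 2 * 1 ≤ (e : ℝ) ^ 2 * (100 * ((e : ℝ) ^ (3 / 2 : ℝ))⁻¹ *
      (Nat.totient e : ℝ) ^ 2) := by
    calc (e : ℝ) ^ 2 * 1 = (e : ℝ) ^ 2 := mul_one _
      _ ≤ _ := h5
      _ = _ := by ring
  exact le_of_mul_le_mul_left h8 h7

theorem phi_summable : Summable fun e : ℕ => 1 / (Nat.totient e : ℝ) ^ 2 := by
  refine Summable.of_nonneg_of_le (fun e => by positivity) phi_bound ?_
  exact (Real.summable_nat_rpow_inv.2 (by norm_num)).mul_left 100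

theorem big_mod {x e : ℕ} (he : 1 ≤ e) : ((PD x e).card : ℝ) ≤ x / e := by
  have h1 : (PD x e).card ≤ x / e := by
    have h2 : ((Ioc 0 x).filter (e ∣ ·)).card = x / e := Nat.Ioc_filter_dvd_card_eq_div x e
    rw [← h2]
    apply card_le_card_of_injOn (fun p => p - 1)
    · intro p hp
      rw [mem_coe, mem_PD] at hp
      rw [mem_coe, mem_filter, mem_Ioc]
      have := hp.2.1.two_le
      exact ⟨⟨by simp only; omega, by simp only; omega⟩, hp.2.2⟩
    · intro p hp q hq h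
      rw [mem_coe, mem_PD] at hp hq
      have h3 := hp.2.1.two_le
      have h4 := hq.2.1.two_le
      simp only at h
      omega
  refine le_trans ?_ Nat.cast_div_le
  exact_mod_cast h1

/-- the pairs with a large common divisor -/
noncomputable def GP (D x : ℕ) : Finset (ℕ × ℕ) :=
  (PD x 1 ×ˢ PD x 1).filter fun v => D < Nat.gcd (v.1 - 1) (v.2 - 1)

theorem gcd_pairs {κ : ℝ} (hκ : 0 < κ) : ∃ D x₀ : ℕ, ∀ x ≥ x₀,
    ((GP D x).card : ℝ) ≤ κ * (x / Real.log x) ^ 2 := by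
  classical
  have h1 := summable_iff_vanishing_norm.1 phi_summable (κ / (2 * 17424)) (by positivity)
  obtain ⟨s, hs⟩ := h1
  obtain ⟨D, hD⟩ : ∃ D : ℕ, D = s.sup id := ⟨_, rfl⟩
  obtain ⟨R, hR⟩ := exists_nat_ge ((512 / κ) ^ 2 + 2)
  refine ⟨D, (R + D) ^ 2, fun x hx => ?_⟩
  obtain ⟨r, hr⟩ : ∃ r : ℕ, r = Nat.sqrt x := ⟨_, rfl⟩
  have hRr : R + D ≤ r := by
    rw [hr, Nat.le_sqrt']
    exact hx
  have hr2 : r ^ 2 ≤ x := by
    rw [hr]
    exact Nat.sqrt_le' x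
  have hr3 : x < (r + 1) ^ 2 := by
    rw [hr]
    exact Nat.lt_succ_sqrt' x
  have hrR : (512 / κ) ^ 2 + 2 ≤ (r : ℝ) := hR.trans (by exact_mod_cast (by omega : R ≤ r))
  have hr2' : 2 ≤ r := by
    have : (2 : ℝ) ≤ r := le_trans (by have : 0 ≤ (512 / κ) ^ 2 := by positivity
                                       linarith) hrR
    exact_mod_cast this
  have hrx : r ≤ x := (Nat.le_self_pow (by norm_num) r).trans hr2
  have hx2 : 2 ≤ x := by omega
  have hx0 : (0 : ℝ) < x := by exact_mod_cast (by omega : 0 < x)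
  have hr0 : (0 : ℝ) < r := by exact_mod_cast (by omega : 0 < r)
  have hlx : 0 < Real.log x := Real.log_pos (by exact_mod_cast (by omega : 1 < x))
  have hxl : 0 < (x : ℝ) / Real.log x := by positivity
  have hsub : GP D x ⊆ (Ioc D x).biUnion fun e => PD x e ×ˢ PD x e := by
    rintro ⟨p, q⟩ hv
    unfold GP at hv
    rw [mem_filter, mem_product] at hv
    obtain ⟨⟨hp, hq⟩, hg⟩ := hv
    simp only at hp hq hg
    rw [mem_PD] at hp hq
    rw [mem_biUnion]
    refine ⟨Nat.gcd (p - 1) (q - 1), ?_, ?_⟩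
    · rw [mem_Ioc]
      refine ⟨hg, ?_⟩
      have h2 := hp.2.1.two_le
      have h3 := Nat.gcd_le_left (q - 1) (by omega : 0 < p - 1)
      omega
    · rw [mem_product, mem_PD, mem_PD]
      exact ⟨⟨hp.1, hp.2.1, Nat.gcd_dvd_left _ _⟩, hq.1, hq.2.1, Nat.gcd_dvd_right _ _⟩
  have hcard : ((GP D x).card : ℝ) ≤ ∑ e ∈ Ioc D x, ((PD x e).card : ℝ) ^ 2 := by
    have h2 := (card_le_card hsub).trans card_biUnion_le
    simp_rw [card_product, ← sq] at h2
    exact_mod_cast h2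
  have hDr : D ≤ r := by omega
  rw [← Ioc_union_Ioc_eq_Ioc hDr hrx, sum_union (by
    rw [disjoint_left]
    intro e h2 h3
    rw [mem_Ioc] at h2 h3
    omega)] at hcard
  have n1 : ∑ e ∈ Ioc D r, ((PD x e).card : ℝ) ^ 2 ≤ κ / 2 * (x / Real.log x) ^ 2 := by
    have h2 : ∀ e ∈ Ioc D r, ((PD x e).card : ℝ) ^ 2 ≤
        17424 * (x / Real.log x) ^ 2 * (1 / (Nat.totient e : ℝ) ^ 2) := by
      intro e he
      rw [mem_Ioc] at he
      have h3 : e ^ 3 ≤ x ^ 2 := by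
        calc e ^ 3 ≤ r ^ 3 := Nat.pow_le_pow_left he.2 3
          _ ≤ r ^ 4 := Nat.pow_le_pow_right (by omega) (by norm_num)
          _ = (r ^ 2) ^ 2 := by ring
          _ ≤ x ^ 2 := Nat.pow_le_pow_left hr2 2
      have h4 := bt (by omega : 1 ≤ e) hx2 h3
      calc ((PD x e).card : ℝ) ^ 2 ≤ (132 * (1 / Nat.totient e) * (x / Real.log x)) ^ 2 :=
            pow_le_pow_left₀ (Nat.cast_nonneg _) h4 2
        _ = _ := by
            rw [mul_pow, mul_pow, one_div, inv_pow]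
            ring
    refine (sum_le_sum h2).trans ?_
    rw [← mul_sum]
    have h3 := hs (Ioc D r) (by
      rw [disjoint_left]
      intro e h4 h5
      rw [mem_Ioc] at h4
      have h6 : e ≤ D := by
        rw [hD]
        exact le_sup (f := id) h5
      omega)
    rw [Real.norm_of_nonneg (sum_nonneg fun _ _ => by positivity)] at h3
    calc 17424 * ((x : ℝ) / Real.log x) ^ 2 * ∑ e ∈ Ioc D r, 1 / (Nat.totient e : ℝ) ^ 2 ≤
          17424 * ((x : ℝ) / Real.log x) ^ 2 * (κ / (2 * 17424)) :=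
          mul_le_mul_of_nonneg_left h3.le (by positivity)
      _ = _ := by ring
  have n2 : ∑ e ∈ Ioc r x, ((PD x e).card : ℝ) ^ 2 ≤ κ / 2 * (x / Real.log x) ^ 2 := by
    have h2 : ∀ e ∈ Ioc r x, ((PD x e).card : ℝ) ^ 2 ≤ (x : ℝ) ^ 2 * ((e : ℝ) ^ 2)⁻¹ := by
      intro e he
      rw [mem_Ioc] at he
      calc ((PD x e).card : ℝ) ^ 2 ≤ (x / e) ^ 2 :=
            pow_le_pow_left₀ (Nat.cast_nonneg _) (big_mod (by omega)) 2
        _ = _ := by rw [div_pow, div_eq_mul_inv]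
    refine (sum_le_sum h2).trans ?_
    rw [← mul_sum]
    have h3 := sum_Ioc_inv_sq_le_sub (α := ℝ) (k := r) (n := x) (by omega) hrx
    have h4 : ∑ e ∈ Ioc r x, ((e : ℝ) ^ 2)⁻¹ ≤ (r : ℝ)⁻¹ := by
      have : (0 : ℝ) ≤ (x : ℝ)⁻¹ := by positivity
      linarith
    have h5 : Real.log x ^ 2 ≤ κ / 2 * r := by
      have h6 : Real.log x ≤ 4 * Real.log r := by
        have h1 : x ≤ r ^ 4 := by
          have h2 : r + 1 ≤ r ^ 2 := by nlinarith
          calc x ≤ (r + 1) ^ 2 := hr3.le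
            _ ≤ (r ^ 2) ^ 2 := Nat.pow_le_pow_left h2 2
            _ = r ^ 4 := by ring
        have h2 : (x : ℝ) ≤ (r : ℝ) ^ 4 := by exact_mod_cast h1
        have h3 := Real.log_le_log hx0 h2
        rw [Real.log_pow] at h3
        push_cast at h3
        exact h3
      have h7 := Real.log_le_rpow_div hr0.le (show (0 : ℝ) < 1 / 4 by norm_num)
      rw [div_div_eq_mul_div, div_one] at h7
      have h8 : Real.log x ≤ 16 * (r : ℝ) ^ (1 / 4 : ℝ) := by linarith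
      have h9 : Real.log x ^ 2 ≤ 256 * Real.sqrt r := by
        calc Real.log x ^ 2 ≤ (16 * (r : ℝ) ^ (1 / 4 : ℝ)) ^ 2 := pow_le_pow_left₀ hlx.le h8 2
          _ = 256 * Real.sqrt r := by
              rw [mul_pow, ← Real.rpow_natCast ((r : ℝ) ^ (1 / 4 : ℝ)) 2, ← Real.rpow_mul hr0.le,
                Real.sqrt_eq_rpow]
              norm_num
      have h10 : 512 / κ ≤ Real.sqrt r := by
        refine Real.le_sqrt_of_sq_le ?_
        linarith
      have h11 : 256 * Real.sqrt r ≤ κ / 2 * r := by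
        have h12 : Real.sqrt r * Real.sqrt r = r := Real.mul_self_sqrt hr0.le
        rw [div_le_iff₀ hκ] at h10
        have h13 := Real.sqrt_nonneg (r : ℝ)
        nlinarith
      linarith
    calc (x : ℝ) ^ 2 * ∑ e ∈ Ioc r x, ((e : ℝ) ^ 2)⁻¹ ≤ (x : ℝ) ^ 2 * (r : ℝ)⁻¹ :=
          mul_le_mul_of_nonneg_left h4 (by positivity)
      _ ≤ κ / 2 * (x / Real.log x) ^ 2 := by
          rw [div_pow, mul_div_assoc', le_div_iff₀ (by positivity)]
          calc (x : ℝ) ^ 2 * (r : ℝ)⁻¹ * Real.log x ^ 2 ≤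
                (x : ℝ) ^ 2 * (r : ℝ)⁻¹ * (κ / 2 * r) :=
                mul_le_mul_of_nonneg_left h5 (by positivity)
            _ = _ := by field_simp
  linarith

end Pool.Agent.H73.RK
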