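import Pool.Agent.H73.RK.Erd

set_option autoImplicit false

/-! The order of `b` modulo almost every prime `p ≤ x` is larger than any given multiple of `√x` -/

namespace Pool.Agent.H73.RK

open Finset

open scoped Classical in
/-- the primes up to `x` for which the order of `b` is at most `K √x` -/
noncomputable def Sm (b : ℤ) (K x : ℕ) : Finset ℕ :=
  (PD x 1).filter fun p => ¬ (p : ℤ) ∣ b ∧ orderOf ((b : ℤ) : ZMod p) ≤ K * Nat.sqrt x

theorem dvd_of_ord {b : ℤ} {p t : ℕ} (h : ((b : ℤ) : ZMod p) ^ t = 1) : (p : ℤ) ∣ b ^ t - 1 := by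
  rw [← ZMod.intCast_zmod_eq_zero_iff_dvd]
  push_cast
  rw [h, sub_self]

theorem ord_pos {b : ℤ} {p : ℕ} (hp : p.Prime) (hb : ¬ (p : ℤ) ∣ b) :
    0 < orderOf ((b : ℤ) : ZMod p) ∧ orderOf ((b : ℤ) : ZMod p) ∣ p - 1 := by
  have fp : Fact p.Prime := ⟨hp⟩
  have h0 : ((b : ℤ) : ZMod p) ≠ 0 := fun h => hb ((ZMod.intCast_zmod_eq_zero_iff_dvd _ _).1 h)
  have h1 := orderOf_dvd_of_pow_eq_one (ZMod.pow_card_sub_one_eq_one h0)
  have := hp.two_le
  exact ⟨Nat.pos_of_dvd_of_pos h1 (by omega), h1⟩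

theorem few_small (b : ℤ) (hb : 2 ≤ b.natAbs) (r y : ℕ) (hy : 1 ≤ y) (hr : 2 ≤ r) (T : Finset ℕ)
    (hT : ∀ p ∈ T, p.Prime ∧ r < p ∧ ¬ (p : ℤ) ∣ b ∧ orderOf ((b : ℤ) : ZMod p) ≤ y) :
    (T.card : ℝ) * Real.log r ≤ 2 * (y : ℝ) ^ 2 * Real.log b.natAbs := by
  classical
  have h1 : ∏ p ∈ T, p ∣ ∏ t ∈ Icc 1 y, (b ^ t - 1).natAbs := by
    refine Finset.prod_primes_dvd _ (fun p hp => (hT p hp).1.prime) fun p hp => ?_
    obtain ⟨h1, _, h2, h3⟩ := hT p hp
    have h4 := ord_pos h1 h2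
    have h5 : p ∣ (b ^ orderOf ((b : ℤ) : ZMod p) - 1).natAbs := by
      rw [← Int.natCast_dvd]
      exact dvd_of_ord (pow_orderOf_eq_one _)
    exact h5.trans (dvd_prod_of_mem (fun t => (b ^ t - 1).natAbs) (mem_Icc.2 ⟨h4.1, h3⟩))
  have h2 : ∀ t ∈ Icc 1 y, 1 ≤ (b ^ t - 1).natAbs ∧ (b ^ t - 1).natAbs ≤ b.natAbs ^ (2 * y) := by
    intro t ht
    rw [mem_Icc] at ht
    have h3 : 2 ≤ b.natAbs ^ t := by
      calc 2 ≤ b.natAbs := hb
        _ ≤ b.natAbs ^ t := Nat.le_self_pow (by omega) _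
    have h4 : (b ^ t).natAbs = b.natAbs ^ t := Int.natAbs_pow b t
    have h5 : b.natAbs ^ (t + 1) ≤ b.natAbs ^ (2 * y) :=
      Nat.pow_le_pow_right (by omega) (by omega)
    have h6 : 2 * b.natAbs ^ t ≤ b.natAbs ^ (t + 1) := by
      rw [pow_succ, mul_comm]
      exact Nat.mul_le_mul_left _ hb
    constructor
    · omega
    · omega
  have h3 : ∏ t ∈ Icc 1 y, (b ^ t - 1).natAbs ≤ b.natAbs ^ (2 * y ^ 2) := by
    calc ∏ t ∈ Icc 1 y, (b ^ t - 1).natAbs ≤ ∏ _t ∈ Icc 1 y, b.natAbs ^ (2 * y) :=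
          prod_le_prod' fun t ht => (h2 t ht).2
      _ = b.natAbs ^ (2 * y ^ 2) := by
          rw [prod_const, Nat.card_Icc, Nat.add_sub_cancel, ← pow_mul]
          congr 1
          ring
  have h4 : 0 < ∏ t ∈ Icc 1 y, (b ^ t - 1).natAbs := prod_pos fun t ht => (h2 t ht).1
  have h5 : r ^ T.card ≤ ∏ p ∈ T, p := by
    rw [← prod_const]
    exact prod_le_prod' fun p hp => (hT p hp).2.1.le
  have h6 : r ^ T.card ≤ b.natAbs ^ (2 * y ^ 2) := h5.trans ((Nat.le_of_dvd h4 h1).trans h3)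
  have h7 : ((r : ℝ)) ^ T.card ≤ (b.natAbs : ℝ) ^ (2 * y ^ 2) := by exact_mod_cast h6
  have hr0 : (0 : ℝ) < r := by exact_mod_cast (by omega : 0 < r)
  have h8 := Real.log_le_log (by positivity) h7
  rw [Real.log_pow, Real.log_pow] at h8
  push_cast at h8
  linarith

/-- **Erdős.** -/
theorem ord_small (b : ℤ) (hb : 2 ≤ b.natAbs) (K : ℕ) {κ : ℝ} (hκ : 0 < κ) : ∃ x₀ : ℕ, ∀ x ≥ x₀,
    ((Sm b K x).card : ℝ) ≤ κ * (x / Real.log x) := by
  classical
  have hlb : 0 < Real.log b.natAbs := Real.log_pos (by exact_mod_cast (by omega : 1 < b.natAbs))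
  obtain ⟨c, hc⟩ := exists_nat_ge (2112 / κ + 1)
  obtain ⟨a, ha⟩ := exists_nat_ge (K + 32 * Real.log b.natAbs / κ + 1)
  have hc1 : 1 ≤ c := by
    have h1 : (1 : ℝ) ≤ c := le_trans (by have : 0 < 2112 / κ := by positivity
                                          linarith) hc
    exact_mod_cast h1
  have hlk : 0 < 32 * Real.log b.natAbs / κ := by positivity
  have ha1 : 1 ≤ a := by
    have h1 : (1 : ℝ) ≤ a := le_trans (by have : (0 : ℝ) ≤ K := Nat.cast_nonneg _
                                          linarith) ha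
    exact_mod_cast h1
  have haK : K ≤ a := by
    have h1 : (K : ℝ) ≤ a := le_trans (by linarith) ha
    exact_mod_cast h1
  obtain ⟨x₁, hx₁⟩ := erd a c ha1 hc1 (half_pos hκ)
  refine ⟨x₁ + (a + c + 2) ^ 2, fun x hx => ?_⟩
  obtain ⟨r, hr⟩ : ∃ r : ℕ, r = Nat.sqrt x := ⟨_, rfl⟩
  have hRr : a + c + 2 ≤ r := by
    rw [hr, Nat.le_sqrt']
    omega
  have hr2 : r ^ 2 ≤ x := by
    rw [hr]
    exact Nat.sqrt_le' x
  have hr3 : x < (r + 1) ^ 2 := by
    rw [hr]
    exact Nat.lt_succ_sqrt' x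
  have hrx : r ≤ x := (Nat.le_self_pow (by norm_num) r).trans hr2
  have hx2 : 2 ≤ x := by omega
  have hx0 : (0 : ℝ) < x := by exact_mod_cast (by omega : 0 < x)
  have hr0 : (0 : ℝ) < r := by exact_mod_cast (by omega : 0 < r)
  have hlx : 0 < Real.log x := Real.log_pos (by exact_mod_cast (by omega : 1 < x))
  have hxl : 0 < (x : ℝ) / Real.log x := by positivity
  have hlr : Real.log x ≤ 4 * Real.log r := by
    have h1 : x ≤ r ^ 4 := by
      have h2 : r + 1 ≤ r ^ 2 := by nlinarith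
      calc x ≤ (r + 1) ^ 2 := hr3.le
        _ ≤ (r ^ 2) ^ 2 := Nat.pow_le_pow_left h2 2
        _ = r ^ 4 := by ring
    have h2 : (x : ℝ) ≤ (r : ℝ) ^ 4 := by exact_mod_cast h1
    have h3 := Real.log_le_log hx0 h2
    rw [Real.log_pow] at h3
    push_cast at h3
    exact h3
  obtain ⟨y, hy⟩ : ∃ y : ℕ, y = r / a := ⟨_, rfl⟩
  have hy1 : 1 ≤ y := by
    rw [hy]
    exact (Nat.one_le_div_iff (by omega)).2 (by omega)
  set T : Finset ℕ := (PD x 1).filter fun p => r < p ∧ ¬ (p : ℤ) ∣ b ∧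
    orderOf ((b : ℤ) : ZMod p) ≤ y with hT
  have n1 : ((PD (x / c) 1).card : ℝ) ≤ κ / 4 * (x / Real.log x) := by
    have h1 : r ≤ x / c := by
      rw [Nat.le_div_iff_mul_le (by omega)]
      calc r * c ≤ r * r := Nat.mul_le_mul_left _ (by omega)
        _ = r ^ 2 := by ring
        _ ≤ x := hr2
    have h2 := bt (x := x / c) (e := 1) le_rfl (by omega)
      (by rw [one_pow]; exact Nat.one_le_pow _ _ (by omega))
    rw [Nat.totient_one, Nat.cast_one, div_one, mul_one] at h2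
    refine h2.trans ?_
    have hc0 : (0 : ℝ) < c := by exact_mod_cast hc1
    have h3 : ((x / c : ℕ) : ℝ) ≤ x / c := Nat.cast_div_le
    have h4 : Real.log x / 4 ≤ Real.log ((x / c : ℕ) : ℝ) := by
      have h5 : Real.log r ≤ Real.log ((x / c : ℕ) : ℝ) :=
        Real.log_le_log hr0 (by exact_mod_cast h1)
      linarith
    calc 132 * (((x / c : ℕ) : ℝ) / Real.log ((x / c : ℕ) : ℝ)) ≤
          132 * ((x / c) / (Real.log x / 4)) := by
            refine mul_le_mul_of_nonneg_left ?_ (by norm_num)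
            exact div_le_div₀ (by positivity) h3 (by positivity) h4
      _ = 528 / c * (x / Real.log x) := by
            field_simp
            ring
      _ ≤ κ / 4 * (x / Real.log x) := by
            refine mul_le_mul_of_nonneg_right ?_ hxl.le
            rw [div_le_div_iff₀ hc0 (by norm_num)]
            have h5 : 2112 / κ ≤ c := by linarith
            rw [div_le_iff₀ hκ] at h5
            linarith
  have n2 : (T.card : ℝ) ≤ κ / 4 * (x / Real.log x) := by
    have h1 := few_small b hb r y hy1 (by omega) T (by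
      intro p hp
      rw [hT, mem_filter, mem_PD] at hp
      exact ⟨hp.1.2.1, hp.2.1, hp.2.2.1, hp.2.2.2⟩)
    have ha0 : (0 : ℝ) < a := by exact_mod_cast ha1
    have h2 : (a : ℝ) ^ 2 * (y : ℝ) ^ 2 ≤ x := by
      have h3 : a * y ≤ r := by
        rw [hy]
        exact Nat.mul_div_le r a
      have h4 : (a * y) ^ 2 ≤ x := (Nat.pow_le_pow_left h3 2).trans hr2
      rw [← mul_pow]
      exact_mod_cast h4
    have h3 : (a : ℝ) ≤ (a : ℝ) ^ 2 := by
      have : (1 : ℝ) ≤ a := by exact_mod_cast ha1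
      nlinarith
    have h4 : 32 * Real.log b.natAbs ≤ κ * a := by
      have h5 : 32 * Real.log b.natAbs / κ ≤ a := by
        have : (0 : ℝ) ≤ K := Nat.cast_nonneg _
        linarith
      rw [div_le_iff₀ hκ] at h5
      linarith
    have hTn : (0 : ℝ) ≤ T.card := Nat.cast_nonneg _
    rw [mul_div_assoc', le_div_iff₀ hlx]
    have h5 : (T.card : ℝ) * Real.log x ≤ 8 * (y : ℝ) ^ 2 * Real.log b.natAbs := by nlinarith
    have h6 : 8 * (y : ℝ) ^ 2 * Real.log b.natAbs ≤ κ / 4 * x := by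
      have h7 : 32 * Real.log b.natAbs * (y : ℝ) ^ 2 ≤ κ * a ^ 2 * (y : ℝ) ^ 2 := by
        refine mul_le_mul_of_nonneg_right (h4.trans ?_) (by positivity)
        exact mul_le_mul_of_nonneg_left h3 hκ.le
      nlinarith
    linarith
  have n3 := hx₁ x (by omega)
  rw [← hr] at n3
  have hsub : Sm b K x ⊆ (PD (x / c) 1 ∪ T) ∪ ((PD x 1).filter fun p => x < c * p ∧
      ∃ d, d ∣ p - 1 ∧ r ≤ a * d ∧ d ≤ a * r) := by
    intro p hp
    unfold Sm at hp
    rw [mem_filter, ← hr] at hp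
    obtain ⟨hpx, hpb, hpo⟩ := hp
    rw [mem_union, mem_union]
    have hpx' := mem_PD.1 hpx
    obtain ⟨hp1, hpp, _⟩ := hpx'
    by_cases h1 : c * p ≤ x
    · left; left
      rw [mem_PD]
      refine ⟨?_, hpp, one_dvd _⟩
      rw [Nat.le_div_iff_mul_le (by omega), mul_comm]
      exact h1
    push Not at h1
    have hrp : r < p := by
      by_contra hcon
      push Not at hcon
      have : c * p ≤ r * r := Nat.mul_le_mul (by omega) hcon
      have h2 : r * r = r ^ 2 := by ring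
      omega
    by_cases h2 : orderOf ((b : ℤ) : ZMod p) ≤ y
    · left; right
      rw [hT, mem_filter]
      exact ⟨hpx, hrp, hpb, h2⟩
    right
    push Not at h2
    rw [mem_filter]
    refine ⟨hpx, h1, orderOf ((b : ℤ) : ZMod p), (ord_pos hpp hpb).2, ?_, ?_⟩
    · rw [hy, Nat.div_lt_iff_lt_mul (by omega)] at h2
      rw [mul_comm]
      exact h2.le
    · exact hpo.trans (Nat.mul_le_mul_right _ haK)
  have hcard := (card_le_card hsub).trans ((card_union_le _ _).trans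
      (Nat.add_le_add_right (card_union_le _ _) _))
  have hcard' : ((Sm b K x).card : ℝ) ≤ ((PD (x / c) 1).card : ℝ) + T.card +
      ((PD x 1).filter fun p => x < c * p ∧
      ∃ d, d ∣ p - 1 ∧ r ≤ a * d ∧ d ≤ a * r).card := by exact_mod_cast hcard
  linarith

end Pool.Agent.H73.RK
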