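import Pool.Agent.H73.KS.Pair

set_option autoImplicit false

/-! Correlations along geometric progressions, without complete periods -/

namespace Pool.Agent.H73.RK

open Finset
open Pool.Agent.H73.KS (hat inversion star_char)

variable {p q : ℕ} [hp : Fact p.Prime] [hq : Fact q.Prime]

/-- Parseval's identity -/
theorem parseval_seq (I : Finset ℕ) (s : ℕ → ZMod p) (t : ℕ → ZMod q) (hs : ∀ i, s i ≠ 0)
    (ht : ∀ i, t i ≠ 0) :
    ∑ v : DirichletCharacter ℂ p × DirichletCharacter ℂ q, ‖∑ i ∈ I, v.1 (s i) * v.2 (t i)‖ ^ 2 =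
      ((p : ℝ) - 1) * ((q : ℝ) - 1) *
        ((I ×ˢ I).filter fun w => s w.1 = s w.2 ∧ t w.1 = t w.2).card := by
  classical
  have e2 : ((∑ v : DirichletCharacter ℂ p × DirichletCharacter ℂ q,
      ‖∑ i ∈ I, v.1 (s i) * v.2 (t i)‖ ^ 2 : ℝ) : ℂ) =
      ((((p : ℝ) - 1) * ((q : ℝ) - 1) *
        ((I ×ˢ I).filter fun w => s w.1 = s w.2 ∧ t w.1 = t w.2).card : ℝ) : ℂ) := by
    push_cast
    have e1 : ∀ v : DirichletCharacter ℂ p × DirichletCharacter ℂ q,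
        ((‖∑ i ∈ I, v.1 (s i) * v.2 (t i)‖ : ℝ) : ℂ) ^ 2 =
        ∑ i ∈ I, ∑ j ∈ I, (v.1 (s i)⁻¹ * v.1 (s j)) * (v.2 (t i)⁻¹ * v.2 (t j)) := by
      intro v
      rw [← Complex.ofReal_pow, ← Complex.normSq_eq_norm_sq, ← Complex.mul_conj, mul_comm, map_sum,
        sum_mul_sum]
      refine sum_congr rfl fun i _ => sum_congr rfl fun j _ => ?_
      rw [map_mul, starRingEnd_apply, starRingEnd_apply, star_char, star_char]
      ring
    rw [sum_congr rfl fun v _ => e1 v, sum_comm]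
    rw [card_filter, sum_product, Nat.cast_sum, mul_sum]
    refine sum_congr rfl fun i _ => ?_
    rw [sum_comm, Nat.cast_sum, mul_sum]
    refine sum_congr rfl fun j _ => ?_
    rw [← univ_product_univ, sum_product]
    simp_rw [← mul_sum]
    rw [← sum_mul, DirichletCharacter.sum_char_inv_mul_char_eq ℂ
      (isUnit_iff_ne_zero.2 (hs i)), DirichletCharacter.sum_char_inv_mul_char_eq ℂ
      (isUnit_iff_ne_zero.2 (ht i)), Nat.totient_prime hp.out,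
      Nat.totient_prime hq.out, Nat.cast_sub hp.out.one_le, Nat.cast_sub hq.out.one_le]
    by_cases h1 : s i = s j
    · by_cases h2 : t i = t j
      · simp [h1, h2]
      · simp [h2]
    · simp [h1]
  exact_mod_cast e2

/-- the correlation for `k = i + j` with `i, j < M` -/
theorem pair_le (f : ZMod p → ℂ) (g : ZMod q → ℂ) {b₁ u₁ : ZMod p} {b₂ u₂ : ZMod q}
    (hb : b₁ ≠ 0) (hb' : b₂ ≠ 0) (hu : u₁ ≠ 0) (hu' : u₂ ≠ 0) (M : ℕ)
    {A B : ℝ} (hA : 0 ≤ A) (hA' : ∀ χ, ‖hat f χ‖ ≤ A) (hB' : ∀ χ, ‖hat g χ‖ ≤ B) :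
    ‖∑ i ∈ range M, ∑ j ∈ range M, f (u₁ * b₁ ^ (i + j)) * g (u₂ * b₂ ^ (i + j))‖ ≤
      A * B * ((range M ×ˢ range M).filter fun w : ℕ × ℕ =>
        b₁ ^ w.1 = b₁ ^ w.2 ∧ b₂ ^ w.1 = b₂ ^ w.2).card := by
  classical
  set z : DirichletCharacter ℂ p × DirichletCharacter ℂ q → ℕ → ℂ :=
    fun v i => v.1 ((b₁⁻¹) ^ i) * v.2 ((b₂⁻¹) ^ i) with hz
  have e1 : ((p : ℂ) - 1) * ((q : ℂ) - 1) * ∑ i ∈ range M, ∑ j ∈ range M,
      f (u₁ * b₁ ^ (i + j)) * g (u₂ * b₂ ^ (i + j)) =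
      ∑ v : DirichletCharacter ℂ p × DirichletCharacter ℂ q,
        hat f v.1 * hat g v.2 * (v.1 (u₁⁻¹) * v.2 (u₂⁻¹)) *
          ((∑ i ∈ range M, z v i) * ∑ j ∈ range M, z v j) := by
    rw [mul_sum]
    have e2 : ∀ i ∈ range M, ((p : ℂ) - 1) * ((q : ℂ) - 1) * ∑ j ∈ range M,
        f (u₁ * b₁ ^ (i + j)) * g (u₂ * b₂ ^ (i + j)) =
        ∑ v : DirichletCharacter ℂ p × DirichletCharacter ℂ q, ∑ j ∈ range M,
          hat f v.1 * hat g v.2 * (v.1 (u₁⁻¹) * v.2 (u₂⁻¹)) * (z v i * z v j) := by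
      intro i _
      rw [mul_sum, sum_comm]
      refine sum_congr rfl fun j _ => ?_
      have h1 : u₁ * b₁ ^ (i + j) ≠ 0 := mul_ne_zero hu (pow_ne_zero _ hb)
      have h2 : u₂ * b₂ ^ (i + j) ≠ 0 := mul_ne_zero hu' (pow_ne_zero _ hb')
      rw [mul_mul_mul_comm, inversion f h1, inversion g h2, sum_mul_sum,
        ← univ_product_univ, sum_product]
      refine sum_congr rfl fun χ _ => sum_congr rfl fun ψ _ => ?_
      rw [hz]
      simp only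
      rw [mul_inv, mul_inv, map_mul, map_mul, ← inv_pow, ← inv_pow, pow_add, pow_add, map_mul,
        map_mul]
      ring
    rw [sum_congr rfl e2, sum_comm]
    refine sum_congr rfl fun v _ => ?_
    rw [sum_mul_sum, mul_sum]
    refine sum_congr rfl fun i _ => ?_
    rw [mul_sum]
  have hp1 : (0 : ℝ) < (p : ℝ) - 1 := by
    have : (2 : ℝ) ≤ p := by exact_mod_cast hp.out.two_le
    linarith
  have hq1 : (0 : ℝ) < (q : ℝ) - 1 := by
    have : (2 : ℝ) ≤ q := by exact_mod_cast hq.out.two_le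
    linarith
  have e3 : ∀ v : DirichletCharacter ℂ p × DirichletCharacter ℂ q,
      ‖hat f v.1 * hat g v.2 * (v.1 (u₁⁻¹) * v.2 (u₂⁻¹)) *
          ((∑ i ∈ range M, z v i) * ∑ j ∈ range M, z v j)‖ ≤
        A * B * ‖∑ i ∈ range M, z v i‖ ^ 2 := by
    intro v
    rw [norm_mul, norm_mul, norm_mul, norm_mul, norm_mul]
    have h1 : ‖v.1 (u₁⁻¹)‖ * ‖v.2 (u₂⁻¹)‖ ≤ 1 :=
      mul_le_one₀ (DirichletCharacter.norm_le_one _ _) (norm_nonneg _)
        (DirichletCharacter.norm_le_one _ _)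
    have h2 : ‖hat f v.1‖ * ‖hat g v.2‖ ≤ A * B :=
      mul_le_mul (hA' _) (hB' _) (norm_nonneg _) hA
    have h4 : ‖hat f v.1‖ * ‖hat g v.2‖ * (‖v.1 (u₁⁻¹)‖ * ‖v.2 (u₂⁻¹)‖) ≤
        A * B * 1 := mul_le_mul h2 h1 (by positivity) ((mul_nonneg (norm_nonneg _) (norm_nonneg _)).trans h2)
    rw [mul_one] at h4
    rw [sq]
    exact mul_le_mul_of_nonneg_right h4 (by positivity)
  have e4 := congrArg norm e1
  have e5 : ‖((p : ℂ) - 1) * ((q : ℂ) - 1)‖ = ((p : ℝ) - 1) * ((q : ℝ) - 1) := by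
    have : ((p : ℂ) - 1) * ((q : ℂ) - 1) = ((((p : ℝ) - 1) * ((q : ℝ) - 1) : ℝ) : ℂ) := by
      push_cast
      ring
    rw [this, Complex.norm_real, Real.norm_of_nonneg (mul_nonneg hp1.le hq1.le)]
  rw [norm_mul, e5] at e4
  have e6 := parseval_seq (p := p) (q := q) (range M) (fun i => (b₁⁻¹) ^ i) (fun i => (b₂⁻¹) ^ i)
    (fun i => pow_ne_zero _ (inv_ne_zero hb)) (fun i => pow_ne_zero _ (inv_ne_zero hb'))
  have e7 : ((range M ×ˢ range M).filter fun w : ℕ × ℕ => (b₁⁻¹) ^ w.1 = (b₁⁻¹) ^ w.2 ∧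
      (b₂⁻¹) ^ w.1 = (b₂⁻¹) ^ w.2) = ((range M ×ˢ range M).filter fun w : ℕ × ℕ =>
        b₁ ^ w.1 = b₁ ^ w.2 ∧ b₂ ^ w.1 = b₂ ^ w.2) := by
    refine filter_congr fun w _ => ?_
    rw [inv_pow, inv_pow, inv_pow, inv_pow, inv_inj, inv_inj]
  have e8 : ((p : ℝ) - 1) * ((q : ℝ) - 1) * ‖∑ i ∈ range M, ∑ j ∈ range M,
      f (u₁ * b₁ ^ (i + j)) * g (u₂ * b₂ ^ (i + j))‖ ≤
      ((p : ℝ) - 1) * ((q : ℝ) - 1) * (A * B * ((range M ×ˢ range M).filter fun w : ℕ × ℕ =>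
        b₁ ^ w.1 = b₁ ^ w.2 ∧ b₂ ^ w.1 = b₂ ^ w.2).card) := by
    rw [e4]
    refine (norm_sum_le _ _).trans ((sum_le_sum fun v _ => e3 v).trans ?_)
    rw [← mul_sum, ← e7]
    calc A * B * ∑ v : DirichletCharacter ℂ p × DirichletCharacter ℂ q,
          ‖∑ i ∈ range M, z v i‖ ^ 2 = A * B * (((p : ℝ) - 1) * ((q : ℝ) - 1) *
          ((range M ×ˢ range M).filter fun w : ℕ × ℕ => (b₁⁻¹) ^ w.1 = (b₁⁻¹) ^ w.2 ∧
            (b₂⁻¹) ^ w.1 = (b₂⁻¹) ^ w.2).card) := by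
            rw [hz]
            simp only
            rw [e6]
      _ = _ := by ring
      _ ≤ _ := le_rfl
  exact le_of_mul_le_mul_left e8 (mul_pos hp1 hq1)

theorem pow_eq {r : ℕ} [Fact r.Prime] {b : ZMod r} (hb : b ≠ 0) {i j : ℕ} (hij : i ≤ j)
    (h : b ^ i = b ^ j) : orderOf b ∣ j - i := by
  apply orderOf_dvd_of_pow_eq_one
  obtain ⟨k, rfl⟩ := Nat.exists_eq_add_of_le hij
  rw [Nat.add_sub_cancel_left]
  rw [pow_add] at h
  have h1 : b ^ i * 1 = b ^ i * b ^ k := by rw [mul_one]; exact h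
  exact (mul_left_cancel₀ (pow_ne_zero _ hb) h1).symm

/-- the number of coincidences -/
theorem coinc {b₁ : ZMod p} {b₂ : ZMod q} (hb : b₁ ≠ 0) (hb' : b₂ ≠ 0) (M : ℕ) {L : ℕ}
    (hL : L = Nat.lcm (orderOf b₁) (orderOf b₂)) (hL0 : 0 < L) :
    (((range M ×ˢ range M).filter fun w : ℕ × ℕ =>
        b₁ ^ w.1 = b₁ ^ w.2 ∧ b₂ ^ w.1 = b₂ ^ w.2).card : ℝ) ≤ M * (M / L + 1) := by
  classical
  have h1 : ∀ i j : ℕ, b₁ ^ i = b₁ ^ j ∧ b₂ ^ i = b₂ ^ j → j ≡ i [MOD L] := by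
    intro i j h
    rcases le_total i j with hij | hij
    · have h2 := Nat.lcm_dvd (pow_eq hb hij h.1) (pow_eq hb' hij h.2)
      rw [← hL] at h2
      exact ((Nat.modEq_iff_dvd' hij).2 h2).symm
    · have h2 := Nat.lcm_dvd (pow_eq hb hij h.1.symm) (pow_eq hb' hij h.2.symm)
      rw [← hL] at h2
      exact (Nat.modEq_iff_dvd' hij).2 h2
  have h2 : ((range M ×ˢ range M).filter fun w : ℕ × ℕ =>
      b₁ ^ w.1 = b₁ ^ w.2 ∧ b₂ ^ w.1 = b₂ ^ w.2) ⊆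
      (range M).biUnion fun i => ((range M).filter fun j => j ≡ i [MOD L]).image fun j => (i, j) := by
    rintro ⟨i, j⟩ hw
    rw [mem_filter, mem_product] at hw
    rw [mem_biUnion]
    refine ⟨i, hw.1.1, ?_⟩
    rw [mem_image]
    exact ⟨j, mem_filter.2 ⟨hw.1.2, h1 i j hw.2⟩, rfl⟩
  have h3 : ∀ i ∈ range M, (((range M).filter fun j => j ≡ i [MOD L]).image
      fun j => (i, j)).card ≤ M / L + 1 := by
    intro i _
    refine card_image_le.trans ?_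
    rw [← Nat.count_eq_card_filter_range, Nat.count_modEq_card M hL0]
    split_ifs <;> omega
  have h4 := (card_le_card h2).trans (card_biUnion_le.trans (sum_le_sum h3))
  rw [sum_const, card_range, smul_eq_mul] at h4
  have h5 : (((range M ×ˢ range M).filter fun w : ℕ × ℕ =>
        b₁ ^ w.1 = b₁ ^ w.2 ∧ b₂ ^ w.1 = b₂ ^ w.2).card : ℝ) ≤ M * ((M / L : ℕ) + 1) := by
    exact_mod_cast h4
  refine h5.trans (mul_le_mul_of_nonneg_left ?_ (Nat.cast_nonneg _))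
  have := Nat.cast_div_le (α := ℝ) (m := M) (n := L)
  linarith

end Pool.Agent.H73.RK
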