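import Pool.Agent.H73.RK.Ord
import Pool.Agent.H73.RK.Gcd
import Pool.Agent.H73.RK.Pair
import Pool.Agent.H73.KS.Var

set_option autoImplicit false

/-! The variance along a geometric progression -/

namespace Pool.Agent.H73.RK

open Finset
open Pool.Agent.H73.KS (Adm hat)

/-- the primes up to `x` not dividing `u b` -/
noncomputable def Qr (b u : ℤ) (x : ℕ) : Finset ℕ :=
  open scoped Classical in
  (range (x + 1)).filter fun p => p.Prime ∧ ¬ (p : ℤ) ∣ u ∧ ¬ (p : ℤ) ∣ b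

theorem mem_Qr {b u : ℤ} {x p : ℕ} :
    p ∈ Qr b u x ↔ p ≤ x ∧ p.Prime ∧ ¬ (p : ℤ) ∣ u ∧ ¬ (p : ℤ) ∣ b := by
  unfold Qr
  rw [mem_filter, mem_range, Nat.lt_succ_iff]

theorem cast_ne {p : ℕ} {n : ℤ} (h : ¬ (p : ℤ) ∣ n) : ((n : ℤ) : ZMod p) ≠ 0 :=
  fun h' => h ((ZMod.intCast_zmod_eq_zero_iff_dvd _ _).1 h')

theorem good_pair {B : ℝ} {F : ∀ p : ℕ, ZMod p → ℝ} (hF : Adm B F) {b : ℤ} {p q x D K M : ℕ}
    (hp : p.Prime) (hq : q.Prime) (hpx : p ≤ x) (hqx : q ≤ x) (hpb : ¬ (p : ℤ) ∣ b)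
    (hqb : ¬ (q : ℤ) ∣ b) (hps : K * Nat.sqrt x < orderOf ((b : ℤ) : ZMod p))
    (hqs : K * Nat.sqrt x < orderOf ((b : ℤ) : ZMod q)) (hK : 1 ≤ K)
    (hg : Nat.gcd (p - 1) (q - 1) ≤ D) {u₁ : ZMod p} {u₂ : ZMod q} (hu : u₁ ≠ 0) (hu' : u₂ ≠ 0) :
    |∑ i ∈ range M, ∑ j ∈ range M, F p (u₁ * (b : ZMod p) ^ (i + j)) *
      F q (u₂ * (b : ZMod q) ^ (i + j))| ≤
      B ^ 2 * (M : ℝ) ^ 2 * (4 * D / (K : ℝ) ^ 2) + B ^ 2 * x * M := by
  classical
  have fp : Fact p.Prime := ⟨hp⟩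
  have fq : Fact q.Prime := ⟨hq⟩
  obtain ⟨hB0, hF'⟩ := hF
  have hb := cast_ne hpb
  have hb' := cast_ne hqb
  obtain ⟨o1, o2⟩ := ord_pos hp hpb
  obtain ⟨o3, o4⟩ := ord_pos hq hqb
  obtain ⟨L, hL⟩ : ∃ L : ℕ, L = Nat.lcm (orderOf ((b : ℤ) : ZMod p)) (orderOf ((b : ℤ) : ZMod q)) :=
    ⟨_, rfl⟩
  have hL0 : 0 < L := by
    rw [hL]
    exact Nat.lcm_pos o1 o3
  have h1 := pair_le (p := p) (q := q) (fun a => (F p a : ℂ)) (fun a => (F q a : ℂ)) hb hb' hu hu' M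
    (A := B * Real.sqrt p) (B := B * Real.sqrt q) (by positivity) (hF' p fp).2 (hF' q fq).2
  have h2 : ‖∑ i ∈ range M, ∑ j ∈ range M, (F p (u₁ * (b : ZMod p) ^ (i + j)) : ℂ) *
      (F q (u₂ * (b : ZMod q) ^ (i + j)) : ℂ)‖ =
      |∑ i ∈ range M, ∑ j ∈ range M, F p (u₁ * (b : ZMod p) ^ (i + j)) *
      F q (u₂ * (b : ZMod q) ^ (i + j))| := by
    rw [← Real.norm_eq_abs, ← Complex.norm_real]
    congr 1
    push_cast
    rfl
  rw [h2] at h1
  refine h1.trans ?_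
  have h3 := coinc (p := p) (q := q) hb hb' M hL hL0
  have hxr : x ≤ 4 * Nat.sqrt x ^ 2 := by
    have h4 : x < (Nat.sqrt x + 1) ^ 2 := Nat.lt_succ_sqrt' x
    have h5 : 1 ≤ Nat.sqrt x := by
      rw [Nat.le_sqrt']
      have := hp.two_le
      omega
    nlinarith
  have hLx : K ^ 2 * x ≤ 4 * D * L := by
    have h4 : orderOf ((b : ℤ) : ZMod p) * orderOf ((b : ℤ) : ZMod q) ≤ D * L := by
      rw [← Nat.gcd_mul_lcm, ← hL]
      refine Nat.mul_le_mul_right _ (le_trans ?_ hg)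
      refine Nat.le_of_dvd (Nat.gcd_pos_of_pos_left _ (by have := hp.two_le; omega)) ?_
      exact Nat.gcd_dvd_gcd_of_dvd_left _ o2 |>.trans (Nat.gcd_dvd_gcd_of_dvd_right _ o4)
    have h5 : (K * Nat.sqrt x) * (K * Nat.sqrt x) ≤
        orderOf ((b : ℤ) : ZMod p) * orderOf ((b : ℤ) : ZMod q) := Nat.mul_le_mul hps.le hqs.le
    calc K ^ 2 * x ≤ K ^ 2 * (4 * Nat.sqrt x ^ 2) := Nat.mul_le_mul_left _ hxr
      _ = 4 * ((K * Nat.sqrt x) * (K * Nat.sqrt x)) := by ring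
      _ ≤ 4 * (D * L) := Nat.mul_le_mul_left _ (h5.trans h4)
      _ = _ := by ring
  have hL0' : (0 : ℝ) < L := by exact_mod_cast hL0
  have hK0 : (0 : ℝ) < K := by exact_mod_cast hK
  have h4 : (x : ℝ) / L ≤ 4 * D / (K : ℝ) ^ 2 := by
    rw [div_le_div_iff₀ hL0' (by positivity)]
    have h5 : (K : ℝ) ^ 2 * x ≤ 4 * D * L := by exact_mod_cast hLx
    linarith
  have h8 : Real.sqrt p ≤ Real.sqrt x := Real.sqrt_le_sqrt (by exact_mod_cast hpx)
  have h9 : Real.sqrt q ≤ Real.sqrt x := Real.sqrt_le_sqrt (by exact_mod_cast hqx)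
  have h11 : Real.sqrt x * Real.sqrt x = x := Real.mul_self_sqrt (Nat.cast_nonneg _)
  have h12 : B * Real.sqrt p * (B * Real.sqrt q) ≤ B ^ 2 * x := by
    calc B * Real.sqrt p * (B * Real.sqrt q) ≤ B * Real.sqrt x * (B * Real.sqrt x) := by gcongr
      _ = B ^ 2 * (Real.sqrt x * Real.sqrt x) := by ring
      _ = _ := by rw [h11]
  calc B * Real.sqrt p * (B * Real.sqrt q) * ((range M ×ˢ range M).filter fun w : ℕ × ℕ =>
        (b : ZMod p) ^ w.1 = (b : ZMod p) ^ w.2 ∧ (b : ZMod q) ^ w.1 = (b : ZMod q) ^ w.2).card ≤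
        (B ^ 2 * x) * (M * (M / L + 1)) :=
        mul_le_mul h12 h3 (Nat.cast_nonneg _) (by positivity)
    _ = B ^ 2 * (M : ℝ) ^ 2 * (x / L) + B ^ 2 * x * M := by
        field_simp
    _ ≤ _ := by
        have := mul_le_mul_of_nonneg_left h4 (show 0 ≤ B ^ 2 * (M : ℝ) ^ 2 by positivity)
        linarith

theorem weights (G : ℕ → ℝ) (hG : ∀ n, 0 ≤ G n) (N : ℕ) :
    N * ∑ n ∈ Ico N (2 * N), G n ≤ ∑ i ∈ range (2 * N), ∑ j ∈ range (2 * N), G (i + j) := by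
  have h1 : ∀ i ∈ range N, ∑ n ∈ Ico N (2 * N), G n ≤ ∑ j ∈ range (2 * N), G (i + j) := by
    intro i hi
    rw [mem_range] at hi
    have h2 : ∑ j ∈ range (2 * N), G (i + j) = ∑ n ∈ Ico i (i + 2 * N), G n := by
      rw [sum_Ico_eq_sum_range, Nat.add_sub_cancel_left]
    rw [h2]
    refine sum_le_sum_of_subset_of_nonneg ?_ fun _ _ _ => hG _
    intro n hn
    rw [mem_Ico] at hn ⊢
    omega
  have h2 : ∑ i ∈ range N, ∑ j ∈ range (2 * N), G (i + j) ≤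
      ∑ i ∈ range (2 * N), ∑ j ∈ range (2 * N), G (i + j) :=
    sum_le_sum_of_subset_of_nonneg (range_subset_range.2 (by omega))
      fun _ _ _ => sum_nonneg fun _ _ => hG _
  refine le_trans ?_ h2
  refine le_trans ?_ (sum_le_sum h1)
  rw [sum_const, card_range, nsmul_eq_mul]

theorem swap_sum (F : ∀ p : ℕ, ℕ → ℝ) (Q : Finset ℕ) (M : ℕ) :
    ∑ i ∈ range M, ∑ j ∈ range M, (∑ p ∈ Q, F p (i + j)) ^ 2 =
      ∑ p ∈ Q, ∑ q ∈ Q, ∑ i ∈ range M, ∑ j ∈ range M, F p (i + j) * F q (i + j) := by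
  have e2 : ∀ k l : ℕ, (∑ p ∈ Q, F p (k + l)) ^ 2 =
      ∑ p ∈ Q, ∑ q ∈ Q, F p (k + l) * F q (k + l) := by
    intro k l
    rw [sq, sum_mul_sum]
  simp_rw [e2]
  calc ∑ k ∈ range M, ∑ l ∈ range M, ∑ p ∈ Q, ∑ q ∈ Q, F p (k + l) * F q (k + l) =
      ∑ k ∈ range M, ∑ p ∈ Q, ∑ l ∈ range M, ∑ q ∈ Q, F p (k + l) * F q (k + l) :=
        sum_congr rfl fun k _ => sum_comm
    _ = ∑ p ∈ Q, ∑ k ∈ range M, ∑ l ∈ range M, ∑ q ∈ Q, F p (k + l) * F q (k + l) := sum_comm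
    _ = ∑ p ∈ Q, ∑ k ∈ range M, ∑ q ∈ Q, ∑ l ∈ range M, F p (k + l) * F q (k + l) :=
        sum_congr rfl fun p _ => sum_congr rfl fun k _ => sum_comm
    _ = _ := sum_congr rfl fun p _ => sum_comm

/-- the variance -/
theorem variance (b : ℤ) (hb : 2 ≤ b.natAbs) {B κ : ℝ} (hB : 0 < B) (hκ : 0 < κ) :
    ∃ C : ℕ, 2 ≤ C ∧ ∀ F : (∀ p : ℕ, ZMod p → ℝ), Adm B F → ∀ (u : ℤ) (x N : ℕ), C ≤ x →
      C * x ≤ N → ∑ k ∈ Icc 1 N, (∑ p ∈ Qr b u x, F p ((u * b ^ k : ℤ) : ZMod p)) ^ 2 ≤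
        κ * N * (x / Real.log x) ^ 2 := by
  classical
  -- the parameters
  obtain ⟨κ₂, hκ₂⟩ : ∃ t : ℝ, t = κ / (16 * B ^ 2) := ⟨_, rfl⟩
  have hκ₂0 : 0 < κ₂ := by rw [hκ₂]; positivity
  obtain ⟨κ₁, hκ₁⟩ : ∃ t : ℝ, t = κ₂ / 264 := ⟨_, rfl⟩
  have hκ₁0 : 0 < κ₁ := by rw [hκ₁]; positivity
  obtain ⟨D, x₂, hx₂⟩ := gcd_pairs hκ₂0
  obtain ⟨K, hK⟩ := exists_nat_ge (17424 * (4 * D) / κ₂ + 1)
  have hK1 : 1 ≤ K := by
    have h1 : (1 : ℝ) ≤ K := le_trans (by have : 0 ≤ 17424 * (4 * (D : ℝ)) / κ₂ := by positivity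
                                          linarith) hK
    exact_mod_cast h1
  obtain ⟨x₁, hx₁⟩ := ord_small b hb K hκ₁0
  obtain ⟨C₀, hC₀⟩ := exists_nat_ge (17424 / κ₂ + 1)
  refine ⟨x₁ + x₂ + C₀ + 2, by omega, fun F hF u x N hx hN => ?_⟩
  have hx2 : 2 ≤ x := by omega
  have hx0 : (0 : ℝ) < x := by exact_mod_cast (by omega : 0 < x)
  have hlx : 0 < Real.log x := Real.log_pos (by exact_mod_cast (by omega : 1 < x))
  have hxl : 0 < (x : ℝ) / Real.log x := by positivity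
  obtain ⟨X, hX⟩ : ∃ X : ℝ, X = (x : ℝ) / Real.log x := ⟨_, rfl⟩
  have hX0 : 0 < X := by rw [hX]; exact hxl
  have hCx : C₀ * x ≤ N := le_trans (Nat.mul_le_mul_right _ (by omega)) hN
  have hC₀1 : 1 ≤ C₀ := by
    have h1 : (1 : ℝ) ≤ C₀ := le_trans (by have : 0 ≤ 17424 / κ₂ := by positivity
                                           linarith) hC₀
    exact_mod_cast h1
  have hN1 : 1 ≤ N := by
    have : 1 * 1 ≤ C₀ * x := Nat.mul_le_mul hC₀1 (by omega)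
    omega
  have hN0 : (0 : ℝ) < N := by exact_mod_cast hN1
  set Q := Qr b u x with hQ
  set w : ∀ p : ℕ, ZMod p := fun p => (u : ZMod p) * ((b : ZMod p)⁻¹) ^ (N - 1) with hw
  set G : ℕ → ℝ := fun n => (∑ p ∈ Q, F p (w p * (b : ZMod p) ^ n)) ^ 2 with hG
  -- the sum over `k`
  have e1 : ∑ k ∈ Icc 1 N, (∑ p ∈ Q, F p ((u * b ^ k : ℤ) : ZMod p)) ^ 2 =
      ∑ n ∈ Ico N (2 * N), G n := by
    refine sum_nbij' (fun k => k + N - 1) (fun n => n + 1 - N) ?_ ?_ ?_ ?_ ?_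
    · intro k hk
      rw [mem_Icc] at hk
      rw [mem_Ico]
      omega
    · intro n hn
      rw [mem_Ico] at hn
      rw [mem_Icc]
      omega
    · intro k hk
      rw [mem_Icc] at hk
      omega
    · intro n hn
      rw [mem_Ico] at hn
      omega
    · intro k hk
      rw [mem_Icc] at hk
      rw [hG]
      simp only
      congr 1
      refine sum_congr rfl fun p hp => ?_
      rw [hQ, mem_Qr] at hp
      have fp : Fact p.Prime := ⟨hp.2.1⟩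
      have hb0 := cast_ne hp.2.2.2
      congr 1
      rw [hw]
      simp only
      push_cast
      have h1 : k + N - 1 = (N - 1) + k := by omega
      rw [h1, pow_add, inv_pow]
      field_simp
  rw [e1]
  have e2 := weights G (fun n => sq_nonneg _) N
  have e3 : ∑ i ∈ range (2 * N), ∑ j ∈ range (2 * N), G (i + j) =
      ∑ p ∈ Q, ∑ q ∈ Q, ∑ i ∈ range (2 * N), ∑ j ∈ range (2 * N),
        F p (w p * (b : ZMod p) ^ (i + j)) * F q (w q * (b : ZMod q) ^ (i + j)) := by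
    rw [hG]
    exact swap_sum (fun p n => F p (w p * (b : ZMod p) ^ n)) Q (2 * N)
  rw [e3] at e2
  -- the pairs
  set T : ℝ := B ^ 2 * ((2 * N : ℕ) : ℝ) ^ 2 with hT
  have hT0 : 0 ≤ T := by positivity
  set V : ℝ := T * (4 * D / (K : ℝ) ^ 2) + B ^ 2 * x * ((2 * N : ℕ) : ℝ) with hV
  have hV0 : 0 ≤ V := by positivity
  have hQP : ∀ p ∈ Q, p ∈ PD x 1 := by
    intro p hp
    rw [hQ, mem_Qr] at hp
    exact mem_PD.2 ⟨hp.1, hp.2.1, one_dvd _⟩
  have h1 : ∀ p ∈ Q, ∀ q ∈ Q, ∑ i ∈ range (2 * N), ∑ j ∈ range (2 * N),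
      F p (w p * (b : ZMod p) ^ (i + j)) * F q (w q * (b : ZMod q) ^ (i + j)) ≤
      (V + (if (p, q) ∈ GP D x then T else 0)) +
        ((if p ∈ Sm b K x then T else 0) + (if q ∈ Sm b K x then T else 0)) := by
    intro p hp q hq
    have hp' := hp
    have hq' := hq
    rw [hQ, mem_Qr] at hp hq
    have fp : Fact p.Prime := ⟨hp.2.1⟩
    have fq : Fact q.Prime := ⟨hq.2.1⟩
    have hpos1 : 0 ≤ (if (p, q) ∈ GP D x then T else 0) := by split_ifs <;> simp [hT0]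
    have hpos2 : 0 ≤ (if p ∈ Sm b K x then T else 0) := by split_ifs <;> simp [hT0]
    have hpos3 : 0 ≤ (if q ∈ Sm b K x then T else 0) := by split_ifs <;> simp [hT0]
    have htriv : ∑ i ∈ range (2 * N), ∑ j ∈ range (2 * N),
        F p (w p * (b : ZMod p) ^ (i + j)) * F q (w q * (b : ZMod q) ^ (i + j)) ≤ T := by
      calc ∑ i ∈ range (2 * N), ∑ j ∈ range (2 * N),
          F p (w p * (b : ZMod p) ^ (i + j)) * F q (w q * (b : ZMod q) ^ (i + j)) ≤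
          ∑ i ∈ range (2 * N), ∑ j ∈ range (2 * N), B ^ 2 := by
            refine sum_le_sum fun k _ => sum_le_sum fun l _ => ?_
            refine (le_abs_self _).trans ?_
            rw [abs_mul, sq]
            exact mul_le_mul ((hF.2 p fp).1 _) ((hF.2 q fq).1 _) (abs_nonneg _) hB.le
        _ = T := by
            rw [sum_const, sum_const, card_range, nsmul_eq_mul, nsmul_eq_mul, hT]
            ring
    by_cases c1 : (p, q) ∈ GP D x
    · rw [if_pos c1]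
      linarith
    by_cases c2 : p ∈ Sm b K x
    · rw [if_pos c2]
      linarith
    by_cases c3 : q ∈ Sm b K x
    · rw [if_pos c3]
      linarith
    rw [if_neg c1, if_neg c2, if_neg c3, add_zero, add_zero, add_zero]
    have c2' : K * Nat.sqrt x < orderOf ((b : ℤ) : ZMod p) := by
      by_contra hcon
      push Not at hcon
      exact c2 (by unfold Sm; exact mem_filter.2 ⟨hQP p hp', hp.2.2.2, hcon⟩)
    have c3' : K * Nat.sqrt x < orderOf ((b : ℤ) : ZMod q) := by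
      by_contra hcon
      push Not at hcon
      exact c3 (by unfold Sm; exact mem_filter.2 ⟨hQP q hq', hq.2.2.2, hcon⟩)
    have c1' : Nat.gcd (p - 1) (q - 1) ≤ D := by
      by_contra hcon
      push Not at hcon
      exact c1 (by unfold GP; exact mem_filter.2 ⟨mem_product.2 ⟨hQP p hp', hQP q hq'⟩, hcon⟩)
    have hu1 : w p ≠ 0 := mul_ne_zero (cast_ne hp.2.2.1) (pow_ne_zero _ (inv_ne_zero (cast_ne hp.2.2.2)))
    have hu2 : w q ≠ 0 := mul_ne_zero (cast_ne hq.2.2.1) (pow_ne_zero _ (inv_ne_zero (cast_ne hq.2.2.2)))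
    exact (le_abs_self _).trans (good_pair hF hp.2.1 hq.2.1 hp.1 hq.1 hp.2.2.2 hq.2.2.2 c2' c3' hK1
      c1' hu1 hu2)
  have hQc : (Q.card : ℝ) ≤ 132 * X := by
    have h2 := card_le_card (fun p hp => hQP p hp : Q ⊆ PD x 1)
    have h3 := bt (x := x) (e := 1) le_rfl hx2 (by rw [one_pow]; exact Nat.one_le_pow _ _ (by omega))
    rw [Nat.totient_one, Nat.cast_one, div_one, mul_one] at h3
    rw [hX]
    exact le_trans (by exact_mod_cast h2) h3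
  have hSc : ((Sm b K x).card : ℝ) ≤ κ₁ * X := by
    rw [hX]
    exact hx₁ x (by omega)
  have hGc : ((GP D x).card : ℝ) ≤ κ₂ * X ^ 2 := by
    rw [hX]
    exact hx₂ x (by omega)
  have h2 : ∑ p ∈ Q, ∑ q ∈ Q, ∑ i ∈ range (2 * N), ∑ j ∈ range (2 * N),
      F p (w p * (b : ZMod p) ^ (i + j)) * F q (w q * (b : ZMod q) ^ (i + j)) ≤
      V * (132 * X) ^ 2 + T * (κ₂ * X ^ 2) + 2 * (T * (κ₁ * X) * (132 * X)) := by
    refine (sum_le_sum fun p hp => sum_le_sum fun q hq => h1 p hp q hq).trans ?_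
    simp_rw [sum_add_distrib]
    have a1 : ∑ _p ∈ Q, ∑ _q ∈ Q, V ≤ V * (132 * X) ^ 2 := by
      rw [sum_const, sum_const, nsmul_eq_mul, nsmul_eq_mul]
      calc (Q.card : ℝ) * (Q.card * V) = V * (Q.card : ℝ) ^ 2 := by ring
        _ ≤ V * (132 * X) ^ 2 :=
            mul_le_mul_of_nonneg_left (pow_le_pow_left₀ (Nat.cast_nonneg _) hQc 2) hV0
    have a2 : ∑ p ∈ Q, ∑ q ∈ Q, (if (p, q) ∈ GP D x then T else 0) ≤ T * (κ₂ * X ^ 2) := by
      rw [← sum_product' (f := fun p q => if (p, q) ∈ GP D x then T else 0), sum_ite_mem,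
        sum_const, nsmul_eq_mul]
      have h3 : (((Q ×ˢ Q) ∩ GP D x).card : ℝ) ≤ κ₂ * X ^ 2 :=
        le_trans (by exact_mod_cast card_le_card inter_subset_right) hGc
      rw [mul_comm]
      exact mul_le_mul_of_nonneg_left h3 hT0
    have a0 : ∑ q ∈ Q, (if q ∈ Sm b K x then T else 0) ≤ T * (κ₁ * X) := by
      rw [sum_ite_mem, sum_const, nsmul_eq_mul, mul_comm]
      refine mul_le_mul_of_nonneg_left ?_ hT0
      exact le_trans (by exact_mod_cast card_le_card inter_subset_right) hSc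
    have a3 : ∑ _p ∈ Q, ∑ q ∈ Q, (if q ∈ Sm b K x then T else 0) ≤
        T * (κ₁ * X) * (132 * X) := by
      rw [sum_const, nsmul_eq_mul, mul_comm]
      exact mul_le_mul a0 hQc (Nat.cast_nonneg _) (by positivity)
    have a4 : ∑ p ∈ Q, ∑ _q ∈ Q, (if p ∈ Sm b K x then T else 0) ≤
        T * (κ₁ * X) * (132 * X) := by
      rw [sum_comm]
      exact a3
    linarith
  have h3 := e2.trans h2
  -- the final estimate
  have f1 : 4 * D / (K : ℝ) ^ 2 * 17424 ≤ κ₂ := by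
    have hKr : 17424 * (4 * (D : ℝ)) / κ₂ ≤ K := by linarith
    rw [div_le_iff₀ hκ₂0] at hKr
    have hK1' : (1 : ℝ) ≤ K := by exact_mod_cast hK1
    rw [div_mul_eq_mul_div, div_le_iff₀ (by positivity)]
    have : (K : ℝ) * κ₂ ≤ κ₂ * (K : ℝ) ^ 2 := by nlinarith
    linarith
  have f2 : B ^ 2 * (x : ℝ) * ((2 * N : ℕ) : ℝ) * 17424 ≤ T * κ₂ := by
    have hCr : 17424 / κ₂ ≤ C₀ := by linarith
    rw [div_le_iff₀ hκ₂0] at hCr
    have hN' : (C₀ : ℝ) * x ≤ N := by exact_mod_cast hCx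
    have h4 : 17424 * (x : ℝ) ≤ N * κ₂ := by nlinarith
    rw [hT]
    push_cast
    have h5 : 0 ≤ B ^ 2 * (2 * (N : ℝ)) := by positivity
    nlinarith
  have f3 : V * (132 * X) ^ 2 ≤ 2 * (T * κ₂) * X ^ 2 := by
    have h4 : V * 17424 ≤ 2 * (T * κ₂) := by
      rw [hV]
      have h5 := mul_le_mul_of_nonneg_left f1 hT0
      linarith
    calc V * (132 * X) ^ 2 = (V * 17424) * X ^ 2 := by ring
      _ ≤ 2 * (T * κ₂) * X ^ 2 := mul_le_mul_of_nonneg_right h4 (by positivity)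
  have f4 : 2 * (T * (κ₁ * X) * (132 * X)) = T * κ₂ * X ^ 2 := by
    rw [hκ₁]
    ring
  have f5 : T * κ₂ * 4 = κ * N ^ 2 := by
    rw [hT, hκ₂]
    push_cast
    field_simp
    ring
  have f6 : (N : ℝ) * ∑ n ∈ Ico N (2 * N), G n ≤ N * (κ * N * X ^ 2) := by
    calc (N : ℝ) * ∑ n ∈ Ico N (2 * N), G n ≤
          V * (132 * X) ^ 2 + T * (κ₂ * X ^ 2) + 2 * (T * (κ₁ * X) * (132 * X)) := h3
      _ ≤ 2 * (T * κ₂) * X ^ 2 + T * (κ₂ * X ^ 2) + T * κ₂ * X ^ 2 := by linarith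
      _ = (T * κ₂ * 4) * X ^ 2 := by ring
      _ = _ := by rw [f5]; ring
  rw [← hX]
  exact le_of_mul_le_mul_left f6 hN0

end Pool.Agent.H73.RK
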